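import Mathlib
import Pool.Agent.Lib.MP_1a3405_co.Ord.Auto

/-!
Inert initial sets with two triggers: `Pair n r L T a b τa τb` says that the set `T` in the box
`{1..n}^d` is closed for the `(r+1)`-neighbour process, that `T` together with either of the two
points `a`, `b` percolates, and that the infection then needs at least the time `L` to reach the
other point.
-/

namespace Pool.Agent.Lib.MP_1a3405_co.Diag

open Pool.Agent.Lib.MP_1a3405_co Pool.Agent.Lib.MP_1a3405_co.Ord

variable {d n : ℕ}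

/-- `C` percolates with threshold `θ` (no nonempty set of points outside `C` avoids infection). -/
def Perc (n θ : ℕ) {d : ℕ} (C : (Fin d → ℤ) → Prop) : Prop :=
  ∀ U : (Fin d → ℤ) → Prop,
    (∀ p, U p → InBox n p ∧ ¬ C p ∧ cnt n (fun q => ¬ U q) p < θ) → ∀ p, ¬ U p

/-- The process with threshold `r + 1` started from `T` and the point `s` percolates, `τ` is a
lower bound for the infection times, and the point `e` and its neighbours are infected last. -/
structure Half (n r : ℕ) (L : ℤ) {d : ℕ} (T : (Fin d → ℤ) → Prop) (τ : (Fin d → ℤ) → ℤ)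
    (s e : Fin d → ℤ) : Prop where
  range : ∀ p, InBox n p → ¬ T p → 1 ≤ τ p ∧ τ p ≤ L
  cert : ∀ p, InBox n p → ¬ T p → p ≠ s → 2 ≤ τ p →
    cnt n (fun q => T q ∨ q = s ∨ τ q + 2 ≤ τ p) p ≤ r
  last : τ e = L
  last' : ∀ δ, InBox n (nb e δ) → ¬ T (nb e δ) → τ (nb e δ) = L
  perc : Perc n (r + 1) (fun p => T p ∨ p = s)

/-- An inert set with two triggers. -/
structure Pair (n r : ℕ) (L : ℤ) {d : ℕ} (T : (Fin d → ℤ) → Prop) (a b : Fin d → ℤ)
    (τa τb : (Fin d → ℤ) → ℤ) : Prop where
  box_a : InBox n a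
  box_b : InBox n b
  not_a : ¬ T a
  not_b : ¬ T b
  ne : a ≠ b
  sep_a : ∀ δ, nb a δ ≠ b
  sep_b : ∀ δ, nb b δ ≠ a
  inert : ∀ p, InBox n p → ¬ T p → cnt n T p ≤ r
  inert_a : cnt n T a + 1 ≤ r
  inert_b : cnt n T b + 1 ≤ r
  perc : Perc n r T
  ha : Half n r L T τa a b
  hb : Half n r L T τb b a

lemma Pair.symm {r : ℕ} {L : ℤ} {T : (Fin d → ℤ) → Prop} {a b : Fin d → ℤ}
    {τa τb : (Fin d → ℤ) → ℤ} (h : Pair n r L T a b τa τb) : Pair n r L T b a τb τa :=
  ⟨h.box_b, h.box_a, h.not_b, h.not_a, h.ne.symm, h.sep_b, h.sep_a, h.inert, h.inert_b,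
    h.inert_a, h.perc, h.hb, h.ha⟩

/-- transport by an involution of the box -/
theorem Perc.map {θ : ℕ} {C : (Fin d → ℤ) → Prop} (R : (Fin d → ℤ) → (Fin d → ℤ))
    (hR : ∀ p, R (R p) = p) (hbox : ∀ p, InBox n p → InBox n (R p))
    (hcnt : ∀ Q p, InBox n p → cnt n (fun q => Q (R q)) p = cnt n Q (R p))
    (h : Perc n θ C) : Perc n θ (fun p => C (R p)) := by
  intro U hU
  have key := h (fun p => U (R p)) ?_
  · intro p hp
    apply key (R p)
    rw [hR]; exact hp
  · intro p hp
    obtain ⟨h1, h2, h3⟩ := hU _ hp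
    have hb : InBox n p := by have := hbox _ h1; rwa [hR] at this
    refine ⟨hb, ?_, ?_⟩
    · have h4 : ¬ C (R (R p)) := h2
      rwa [hR] at h4
    · rw [hcnt (fun q => ¬ U q) p hb]
      exact h3

theorem Half.map {r : ℕ} {L : ℤ} {T : (Fin d → ℤ) → Prop} {τ : (Fin d → ℤ) → ℤ}
    {s e : Fin d → ℤ} (R : (Fin d → ℤ) → (Fin d → ℤ)) (hR : ∀ p, R (R p) = p)
    (hbox : ∀ p, InBox n p → InBox n (R p))
    (hcnt : ∀ Q p, InBox n p → cnt n (fun q => Q (R q)) p = cnt n Q (R p))
    (hnb : ∀ p δ, ∃ δ', R (nb p δ) = nb (R p) δ')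
    (h : Half n r L T τ s e) :
    Half n r L (fun p => T (R p)) (fun p => τ (R p)) (R s) (R e) := by
  refine ⟨?_, ?_, ?_, ?_, ?_⟩
  · intro p hp hT
    exact h.range (R p) (hbox p hp) hT
  · intro p hp hT hne h2
    have h1 := h.cert (R p) (hbox p hp) hT (fun he => hne (by rw [← he, hR])) h2
    rw [← hcnt _ p hp] at h1
    refine le_trans (cnt_mono fun δ _ hq => ?_) h1
    rcases hq with hq | hq | hq
    · exact Or.inl hq
    · right; left; rw [hq, hR]
    · exact Or.inr (Or.inr hq)
  · rw [hR]; exact h.last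
  · intro δ hb hT
    obtain ⟨δ', hδ'⟩ := hnb (R e) δ
    rw [hR] at hδ'
    have hb' := hbox _ hb
    rw [hδ'] at hb' hT ⊢
    exact h.last' δ' hb' hT
  · have h1 := h.perc.map R hR hbox hcnt
    intro U hU
    refine h1 U fun p hp => ?_
    obtain ⟨h2, h3, h4⟩ := hU p hp
    refine ⟨h2, fun h5 => h3 ?_, h4⟩
    rcases h5 with h5 | h5
    · exact Or.inl h5
    · right; rw [← h5, hR]

theorem nb_refl0' (p : Fin (d + 1) → ℤ) (δ : Fin (d + 1) × Bool) :
    ∃ δ', refl0 n (nb p δ) = nb (refl0 n p) δ' := by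
  obtain ⟨i, b⟩ := δ
  refine ⟨(i, if i = 0 then !b else b), ?_⟩
  rw [nb_refl0]
  by_cases hi : i = 0
  · simp [hi]
  · simp [hi]

/-- the number of neighbours equal to a given point is at most one. -/
lemma cnt_eq_le_one (a p : Fin d → ℤ) : cnt n (fun q => q = a) p ≤ 1 := by
  classical
  rw [cnt_eq_card]
  rw [Finset.card_le_one]
  intro x hx y hy
  simp only [Finset.mem_filter, Finset.mem_univ, true_and] at hx hy
  exact nb_injective p (hx.2.trans hy.2.symm)

/-- being a neighbour is symmetric. -/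
lemma nb_symm {p q : Fin d → ℤ} {δ : Fin d × Bool} (h : nb p δ = q) : ∃ δ', nb q δ' = p := by
  obtain ⟨i, b⟩ := δ
  refine ⟨(i, !b), ?_⟩
  subst h
  funext j
  by_cases hj : j = i
  · subst hj
    cases b <;> simp [nb]
  · simp [nb, Function.update_of_ne hj]

open Set in
/-- A half gives a lower bound for the maximum percolation time. -/
theorem Half.le_max {r : ℕ} {L : ℤ} {T : (Fin d → ℤ) → Prop} {τ : (Fin d → ℤ) → ℤ}
    {s e : Fin d → ℤ} (h : Half n r L T τ s e) (hbe : InBox n e) (hTe : ¬ T e) (hne : e ≠ s) :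
    L ≤ (maxPercTime (grid d n) (r + 1) : ℤ) := by
  set C : (Fin d → ℤ) → Prop := fun p => T p ∨ p = s with hC
  set A₀ : Set (Fin d → Fin n) := {v | C (co v)} with hA₀
  set G := grid d n with hG
  -- claim 1
  have c1 : ∀ t : ℕ, ∀ v, v ∈ infected G (r + 1) A₀ t → ¬ C (co v) → τ (co v) ≤ t := by
    intro t
    induction t with
    | zero => intro v hv hC; exact absurd hv hC
    | succ t ih =>
      intro v hv hCv
      rcases hv with hv | hv
      · have := ih v hv hCv
        push_cast
        omega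
      · by_contra hcon
        push Not at hcon
        push_cast at hcon
        have h3 := h.cert (co v) (inBox_co v) (fun hT => hCv (Or.inl hT))
          (fun hs => hCv (Or.inr hs)) (by omega)
        rw [cnt_eq_ncard, ← ncard_nbrs v (fun q => T q ∨ q = s ∨ τ q + 2 ≤ τ (co v))] at h3
        have h4 : (G.neighborSet v ∩ infected G (r + 1) A₀ t).ncard ≤
            ((grid d n).neighborSet v ∩
              {u | T (co u) ∨ co u = s ∨ τ (co u) + 2 ≤ τ (co v)}).ncard := by
          apply Set.ncard_le_ncard _ (Set.toFinite _)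
          rintro u ⟨hu1, hu2⟩
          refine ⟨hu1, ?_⟩
          by_cases hCu : C (co u)
          · rcases hCu with hCu | hCu
            · exact Or.inl hCu
            · exact Or.inr (Or.inl hCu)
          · right; right
            have := ih u hu2 hCu
            omega
        have h5 : r + 1 ≤ (G.neighborSet v ∩ infected G (r + 1) A₀ t).ncard := hv
        omega
  -- claim 2
  have hperc : Percolates G (r + 1) A₀ := by
    have hall : ∀ v, ∃ t, v ∈ infected G (r + 1) A₀ t := by
      have key := h.perc (fun p => InBox n p ∧ ¬ C p ∧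
        ∀ v : Fin d → Fin n, co v = p → ∀ t, v ∉ infected G (r + 1) A₀ t) ?_
      · intro v
        by_contra hcon
        push Not at hcon
        apply key (co v)
        refine ⟨inBox_co v, ?_, ?_⟩
        · intro hT
          exact hcon 0 hT
        · intro v' hv' t
          rw [co_injective hv']
          exact hcon t
      · rintro p ⟨hp, hT, hU⟩
        refine ⟨hp, hT, ?_⟩
        obtain ⟨v, rfl⟩ := exists_co hp
        by_contra hcon
        rw [not_lt] at hcon
        rw [cnt_eq_ncard, ← ncard_nbrs v (fun q => ¬ (InBox n q ∧ ¬ C q ∧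
          ∀ v : Fin d → Fin n, co v = q → ∀ t, v ∉ infected G (r + 1) A₀ t))] at hcon
        have h3 : ∀ u : Fin d → Fin n, ∃ t, (¬ (InBox n (co u) ∧ ¬ C (co u) ∧
            ∀ v : Fin d → Fin n, co v = co u → ∀ t, v ∉ infected G (r + 1) A₀ t)) →
            u ∈ infected G (r + 1) A₀ t := by
          intro u
          by_cases hu : ∃ t, u ∈ infected G (r + 1) A₀ t
          · obtain ⟨t, ht⟩ := hu
            exact ⟨t, fun _ => ht⟩
          · push Not at hu
            refine ⟨0, fun hcon2 => absurd ?_ hcon2⟩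
            refine ⟨inBox_co u, fun hT => hu 0 hT, ?_⟩
            intro v' hv' t
            rw [co_injective hv']
            exact hu t
        choose T' hTT using h3
        obtain ⟨M, hM⟩ := (Set.finite_range T').bddAbove
        apply hU v rfl (M + 1)
        right
        refine le_trans hcon (Set.ncard_le_ncard ?_ (Set.toFinite _))
        rintro u ⟨hu1, hu2⟩
        exact ⟨hu1, infected_mono (hM ⟨u, rfl⟩) (hTT u hu2)⟩
    choose T' hTT using hall
    obtain ⟨M, hM⟩ := (Set.finite_range T').bddAbove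
    refine ⟨M, ?_⟩
    rw [Set.eq_univ_iff_forall]
    intro v
    exact infected_mono (hM ⟨v, rfl⟩) (hTT v)
  obtain ⟨v₀, hv₀⟩ := exists_co hbe
  have h6 : v₀ ∈ infected G (r + 1) A₀ (percTime G (r + 1) A₀) := by
    rw [infected_percTime hperc]; trivial
  have h7 := c1 _ v₀ h6 (by rw [hv₀]; rintro (h8 | h8); exacts [hTe h8, hne h8])
  rw [hv₀] at h7
  have h8 := percTime_le_max hperc
  have h9 : ((percTime G (r + 1) A₀ : ℕ) : ℤ) ≤ ((maxPercTime G (r + 1) : ℕ) : ℤ) := by
    exact_mod_cast h8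
  have h10 := h.last
  omega

end Pool.Agent.Lib.MP_1a3405_co.Diag
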