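import Mathlib
import Pool.Agent.Lib.MP_1a3405_co.Diag.Defs

/-!
Stacking without loss: from an inert set with two triggers in dimension `d`, threshold `r + 1` and
time `L` one gets one in dimension `d + 1`, threshold `r + 2` and time `(n - 4) L`.
-/

namespace Pool.Agent.Lib.MP_1a3405_co.Diag

open Pool.Agent.Lib.MP_1a3405_co Pool.Agent.Lib.MP_1a3405_co.Ord

variable {d n : ℕ}

/-- `a` for odd `z`, `b` for even `z` -/
def pk {α : Type*} (a b : α) (z : ℤ) : α := if z % 2 = 1 then a else b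

lemma pk_odd {α : Type*} (a b : α) {z : ℤ} (h : z % 2 = 1) : pk a b z = a := if_pos h

lemma pk_even {α : Type*} (a b : α) {z : ℤ} (h : z % 2 = 0) : pk a b z = b := if_neg (by omega)

lemma pk_sub_one {α : Type*} (a b : α) (z : ℤ) : pk a b (z - 1) = pk a b (z + 1) := by
  rcases Int.emod_two_eq_zero_or_one z with h | h
  · rw [pk_odd _ _ (by omega), pk_odd _ _ (by omega)]
  · rw [pk_even _ _ (by omega), pk_even _ _ (by omega)]

lemma pk_add_two {α : Type*} (a b : α) (z : ℤ) : pk a b (z + 2) = pk a b z := by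
  have := pk_sub_one a b (z + 1)
  rw [show z + 1 - 1 = z by ring, show z + 1 + 1 = z + 2 by ring] at this
  exact this.symm

lemma Pair.pk {r : ℕ} {L : ℤ} {T : (Fin d → ℤ) → Prop} {a b : Fin d → ℤ}
    {τa τb : (Fin d → ℤ) → ℤ} (h : Pair n r L T a b τa τb) (z : ℤ) :
    Pair n r L T (pk a b z) (pk a b (z + 1)) (pk τa τb z) (pk τa τb (z + 1)) := by
  rcases Int.emod_two_eq_zero_or_one z with hz | hz
  · rw [pk_even _ _ hz, pk_even _ _ hz, pk_odd _ _ (show (z + 1) % 2 = 1 by omega),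
      pk_odd _ _ (show (z + 1) % 2 = 1 by omega)]
    exact h.symm
  · rw [pk_odd _ _ hz, pk_odd _ _ hz, pk_even _ _ (show (z + 1) % 2 = 0 by omega),
      pk_even _ _ (show (z + 1) % 2 = 0 by omega)]
    exact h

/-- the stacked initial set -/
def ST (n : ℕ) (T : (Fin d → ℤ) → Prop) (a b : Fin d → ℤ) (p : Fin (d + 1) → ℤ) : Prop :=
  p 0 = 1 ∨ p 0 = n ∨ T (Fin.tail p) ∨
    (3 ≤ p 0 ∧ p 0 ≤ (n : ℤ) - 2 ∧ Fin.tail p = pk a b (p 0))

/-- the stacked lower bounds for the infection times -/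
def Sτ (n : ℕ) (L : ℤ) (τa τb : (Fin d → ℤ) → ℤ) (p : Fin (d + 1) → ℤ) : ℤ :=
  if p 0 ≤ (n : ℤ) - 3 then (p 0 - 2) * L + pk τa τb (p 0) (Fin.tail p) else ((n : ℤ) - 4) * L

lemma ST_cons (T : (Fin d → ℤ) → Prop) (a b : Fin d → ℤ) (z : ℤ) (u : Fin d → ℤ) :
    ST n T a b (Fin.cons z u) ↔ z = 1 ∨ z = n ∨ T u ∨ (3 ≤ z ∧ z ≤ (n : ℤ) - 2 ∧ u = pk a b z) := by
  simp only [ST, Fin.cons_zero, Fin.tail_cons]

lemma Sτ_cons (L : ℤ) (τa τb : (Fin d → ℤ) → ℤ) (z : ℤ) (u : Fin d → ℤ) :
    Sτ n L τa τb (Fin.cons z u) =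
      if z ≤ (n : ℤ) - 3 then (z - 2) * L + pk τa τb z u else ((n : ℤ) - 4) * L := by
  simp only [Sτ, Fin.cons_zero, Fin.tail_cons]

lemma cons_eq_iff {z z' : ℤ} {u u' : Fin d → ℤ} :
    (Fin.cons z u : Fin (d + 1) → ℤ) = Fin.cons z' u' ↔ z = z' ∧ u = u' := by
  constructor
  · intro h
    have h0 := congrFun h 0
    have h1 := congrArg Fin.tail h
    simp only [Fin.cons_zero] at h0
    rw [Fin.tail_cons, Fin.tail_cons] at h1
    exact ⟨h0, h1⟩
  · rintro ⟨rfl, rfl⟩
    rfl

/-- neighbours in `T` or equal to a point which is no neighbour -/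
lemma cnt_or_eq_le (T : (Fin d → ℤ) → Prop) (a p : Fin d → ℤ) :
    cnt n (fun q => T q ∨ q = a) p ≤ cnt n T p + 1 :=
  (cnt_or_le T (fun q => q = a) p).trans (Nat.add_le_add_left (cnt_eq_le_one a p) _)

lemma cnt_or_eq_le' (T : (Fin d → ℤ) → Prop) (a p : Fin d → ℤ) (h : ∀ δ, nb p δ ≠ a) :
    cnt n (fun q => T q ∨ q = a) p ≤ cnt n T p :=
  cnt_mono fun δ _ hq => hq.resolve_right (h δ)

section
variable {r : ℕ} {L : ℤ} {T : (Fin d → ℤ) → Prop} {a b : Fin d → ℤ}
  {τa τb : (Fin d → ℤ) → ℤ}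

lemma Pair.one_le_L (h : Pair n r L T a b τa τb) : 1 ≤ L := by
  have h1 := h.ha.range b h.box_b h.not_b
  rw [h.ha.last] at h1
  exact h1.1

/-- the certificate for the stacked process -/
theorem stack_cert (h : Pair n r L T a b τa τb) (hn : 6 ≤ n) {z : ℤ} {u : Fin d → ℤ}
    (hz : 1 ≤ z ∧ z ≤ n) (hu : InBox n u) (hST : ¬ ST n T a b (Fin.cons z u))
    (hne : (Fin.cons z u : Fin (d + 1) → ℤ) ≠ Fin.cons 2 (Diag.pk a b 2))
    (h2 : 2 ≤ Sτ n L τa τb (Fin.cons z u)) :
    cnt n (fun q => ST n T a b q ∨ q = Fin.cons 2 (Diag.pk a b 2) ∨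
      Sτ n L τa τb q + 2 ≤ Sτ n L τa τb (Fin.cons z u)) (Fin.cons z u) ≤ r + 1 := by
  classical
  have hL := h.one_le_L
  rw [ST_cons] at hST
  push Not at hST
  obtain ⟨hz1, hzn, hTu, htr⟩ := hST
  have hP := h.pk z
  have hux : z ≤ (n : ℤ) - 2 → u ≠ Diag.pk a b z := by
    intro h3
    by_cases h4 : 3 ≤ z
    · exact htr h4 h3
    · have h5 : z = 2 := by omega
      subst h5
      intro h6
      exact hne (by rw [h6])
  rw [cnt_cons hz hu]
  simp only [ST_cons, Sτ_cons, cons_eq_iff] at h2 ⊢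
  rw [pk_sub_one a b z, pk_sub_one τa τb z]
  set x := Diag.pk a b z with hx
  set y := Diag.pk a b (z + 1) with hy
  set τx := Diag.pk τa τb z with hτx
  set τy := Diag.pk τa τb (z + 1) with hτy
  have hpk2 : z = 2 → Diag.pk a b 2 = x := by
    intro h3; rw [hx, h3]
  have hpk2' : z - 1 = 2 → Diag.pk a b 2 = y := by
    intro h3
    have h4 := pk_sub_one a b z
    rw [h3] at h4
    rw [hy]; exact h4
  have e1 : (z + 1 - 2) * L = (z - 2) * L + L := by ring
  have e2 : (z - 1 - 2) * L = (z - 2) * L - L := by ring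
  have e3 : z = (n : ℤ) - 2 → ((n : ℤ) - 4) * L = (z - 2) * L := by
    intro h3; rw [h3]; ring
  have e4 : z = (n : ℤ) - 3 → ((n : ℤ) - 4) * L = (z - 2) * L + L := by
    intro h3; rw [h3]; ring
  have hrx := hP.ha.range u hu hTu
  have hry := hP.hb.range u hu hTu
  -- the level
  have hlev : z ≤ (n : ℤ) - 2 →
      cnt n (fun q' => (z = 1 ∨ z = n ∨ T q' ∨ 3 ≤ z ∧ z ≤ (n : ℤ) - 2 ∧ q' = x) ∨
        (z = 2 ∧ q' = Diag.pk a b 2) ∨
        (if z ≤ (n : ℤ) - 3 then (z - 2) * L + τx q' else ((n : ℤ) - 4) * L) + 2 ≤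
        (if z ≤ (n : ℤ) - 3 then (z - 2) * L + τx u else ((n : ℤ) - 4) * L)) u ≤
      cnt n (fun q' => T q' ∨ q' = x ∨ (z ≤ (n : ℤ) - 3 ∧ τx q' + 2 ≤ τx u)) u := by
    intro h3
    apply cnt_mono
    intro δ _ hq
    rcases hq with (hq | hq | hq | hq) | hq | hq
    · exact absurd hq hz1
    · exact absurd hq hzn
    · exact Or.inl hq
    · exact Or.inr (Or.inl hq.2.2)
    · right; left; rw [hq.2, hpk2 hq.1]
    · right; right
      split_ifs at hq with h4
      · exact ⟨h4, by omega⟩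
      · omega
  have hlev2 : z = (n : ℤ) - 1 →
      cnt n (fun q' => (z = 1 ∨ z = n ∨ T q' ∨ 3 ≤ z ∧ z ≤ (n : ℤ) - 2 ∧ q' = x) ∨
        (z = 2 ∧ q' = Diag.pk a b 2) ∨
        (if z ≤ (n : ℤ) - 3 then (z - 2) * L + τx q' else ((n : ℤ) - 4) * L) + 2 ≤
        (if z ≤ (n : ℤ) - 3 then (z - 2) * L + τx u else ((n : ℤ) - 4) * L)) u ≤ cnt n T u := by
    intro h3
    apply cnt_mono
    intro δ _ hq
    rcases hq with (hq | hq | hq | hq) | hq | hq
    · exact absurd hq hz1
    · exact absurd hq hzn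
    · exact hq
    · omega
    · omega
    · rw [if_neg (by omega), if_neg (by omega)] at hq
      omega
  set Cc := cnt n (fun q' => (z = 1 ∨ z = n ∨ T q' ∨ 3 ≤ z ∧ z ≤ (n : ℤ) - 2 ∧ q' = x) ∨
        (z = 2 ∧ q' = Diag.pk a b 2) ∨
        (if z ≤ (n : ℤ) - 3 then (z - 2) * L + τx q' else ((n : ℤ) - 4) * L) + 2 ≤
        (if z ≤ (n : ℤ) - 3 then (z - 2) * L + τx u else ((n : ℤ) - 4) * L)) u with hCc
  have hin := hP.inert u hu hTu
  by_cases huy : u = y
  · -- the last point of the level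
    have h5 : Cc ≤ cnt n T u := by
      by_cases h3 : z ≤ (n : ℤ) - 2
      · refine (hlev h3).trans (cnt_mono fun δ hb hq => ?_)
        by_cases hTq : T (nb u δ)
        · exact hTq
        exfalso
        rcases hq with hq | hq | ⟨-, hq⟩
        · exact hTq hq
        · rw [huy] at hq
          exact hP.sep_b δ hq
        · rw [huy] at hq hb hTq
          rw [hP.ha.last' δ hb hTq, hP.ha.last] at hq
          omega
      · exact hlev2 (by omega)
    have h6 := hP.inert_b
    rw [← huy] at h6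
    split_ifs <;> omega
  · -- the neighbour above is not early
    by_cases h3 : z ≤ (n : ℤ) - 2
    · have hA : ¬ (z + 1 ≤ n ∧ ((z + 1 = 1 ∨ z + 1 = n ∨ T u ∨
          3 ≤ z + 1 ∧ z + 1 ≤ (n : ℤ) - 2 ∧ u = y) ∨ (z + 1 = 2 ∧ u = Diag.pk a b 2) ∨
          (if z + 1 ≤ (n : ℤ) - 3 then (z + 1 - 2) * L + τy u else ((n : ℤ) - 4) * L) + 2 ≤
          (if z ≤ (n : ℤ) - 3 then (z - 2) * L + τx u else ((n : ℤ) - 4) * L))) := by
        rintro ⟨-, hq⟩
        rcases hq with (hq | hq | hq | hq) | hq | hq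
        · omega
        · omega
        · exact hTu hq
        · exact huy hq.2.2
        · omega
        · split_ifs at hq with h4 h5 h5 <;> omega
      rw [if_neg hA]
      by_cases h4 : z ≤ (n : ℤ) - 3 ∧ 2 ≤ τx u
      · have h5 := hP.ha.cert u hu hTu (hux h3) h4.2
        have h6 : Cc ≤ r := by
          refine (hlev h3).trans ((cnt_mono fun δ hb hq => ?_).trans h5)
          rcases hq with hq | hq | hq
          · exact Or.inl hq
          · exact Or.inr (Or.inl hq)
          · exact Or.inr (Or.inr hq.2)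
        split_ifs <;> omega
      · have h5 : Cc ≤ cnt n (fun q' => T q' ∨ q' = x) u := by
          refine (hlev h3).trans (cnt_mono fun δ hb hq => ?_)
          rcases hq with hq | hq | hq
          · exact Or.inl hq
          · exact Or.inr hq
          · left
            by_contra hTq
            have h6 := hP.ha.range _ hb hTq
            omega
        by_cases hadj : ∃ δ, nb u δ = x
        · obtain ⟨δ, hδ⟩ := hadj
          obtain ⟨δ', hδ'⟩ := nb_symm hδ
          have hlast : τy u = L := by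
            rw [← hδ']
            apply hP.hb.last' δ'
            · rw [hδ']; exact hu
            · rw [hδ']; exact hTu
          have hB : ¬ (1 ≤ z - 1 ∧ ((z - 1 = 1 ∨ z - 1 = n ∨ T u ∨
              3 ≤ z - 1 ∧ z - 1 ≤ (n : ℤ) - 2 ∧ u = y) ∨ (z - 1 = 2 ∧ u = Diag.pk a b 2) ∨
              (if z - 1 ≤ (n : ℤ) - 3 then (z - 1 - 2) * L + τy u else ((n : ℤ) - 4) * L) + 2 ≤
              (if z ≤ (n : ℤ) - 3 then (z - 2) * L + τx u else ((n : ℤ) - 4) * L))) := by
            rintro ⟨-, hq⟩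
            rcases hq with (hq | hq | hq | hq) | hq | hq
            · have h6 : z = 2 := by omega
              rw [if_pos (by omega)] at h2
              rw [h6] at h2
              simp only [sub_self, zero_mul, zero_add] at h2
              apply h4
              exact ⟨by omega, h2⟩
            · omega
            · exact hTu hq
            · exact huy hq.2.2
            · apply huy
              rw [hq.2, hpk2' hq.1]
            · rw [hlast, if_pos (by omega)] at hq
              split_ifs at hq with h6 <;> omega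
          rw [if_neg hB]
          have h6 := cnt_or_eq_le (n := n) T x u
          omega
        · push Not at hadj
          have h6 := cnt_or_eq_le' (n := n) T x u hadj
          split_ifs <;> omega
    · have h4 : z = (n : ℤ) - 1 := by omega
      have h5 := hlev2 h4
      have hB : ¬ (1 ≤ z - 1 ∧ ((z - 1 = 1 ∨ z - 1 = n ∨ T u ∨
          3 ≤ z - 1 ∧ z - 1 ≤ (n : ℤ) - 2 ∧ u = y) ∨ (z - 1 = 2 ∧ u = Diag.pk a b 2) ∨
          (if z - 1 ≤ (n : ℤ) - 3 then (z - 1 - 2) * L + τy u else ((n : ℤ) - 4) * L) + 2 ≤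
          (if z ≤ (n : ℤ) - 3 then (z - 2) * L + τx u else ((n : ℤ) - 4) * L))) := by
        rintro ⟨-, hq⟩
        rcases hq with (hq | hq | hq | hq) | hq | hq
        · omega
        · omega
        · exact hTu hq
        · exact huy hq.2.2
        · omega
        · rw [if_neg (by omega), if_neg (by omega)] at hq
          omega
      rw [if_neg hB]
      split_ifs <;> omega

/-- every point is a `cons` -/
lemma exists_cons (p : Fin (d + 1) → ℤ) : ∃ (z : ℤ) (u : Fin d → ℤ), p = Fin.cons z u :=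
  ⟨p 0, Fin.tail p, (Fin.cons_self_tail p).symm⟩

/-- percolation of the stacked set with a trigger at the bottom -/
theorem stack_perc (h : Pair n r L T a b τa τb) (hn : 6 ≤ n) :
    Perc n (r + 2) (fun p => ST n T a b p ∨ p = Fin.cons 2 (Diag.pk a b 2)) := by
  classical
  intro U hU'
  have hU : ∀ p, U p → InBox n p ∧ ¬ (ST n T a b p ∨ p = Fin.cons 2 (Diag.pk a b 2)) ∧
      cnt n (fun q => ¬ U q) p < r + 2 := hU'
  have key : ∀ m : ℕ, ∀ z : ℤ, z = m + 1 → z ≤ (n : ℤ) - 2 → ∀ q, ¬ U (Fin.cons z q) := by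
    intro m
    induction m with
    | zero =>
      intro z hz _ q hUq
      have := (hU _ hUq).2.1
      rw [ST_cons] at this
      apply this
      left; left; simpa using hz
    | succ m ih =>
      intro z hz hzn
      have ih' := ih (z - 1) (by push_cast at hz; omega) (by omega)
      have hz2 : 2 ≤ z := by push_cast at hz; omega
      have hP := h.pk z
      apply hP.ha.perc (fun q => U (Fin.cons z q))
      intro q hUq
      obtain ⟨h1, h2, h3⟩ := hU _ hUq
      rw [inBox_cons] at h1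
      rw [ST_cons] at h2
      push Not at h2
      obtain ⟨⟨h21, h22, h23, h24⟩, h25⟩ := h2
      refine ⟨h1.2, ?_, ?_⟩
      · rintro (h4 | h4)
        · exact h23 h4
        · by_cases h5 : 3 ≤ z
          · exact h24 h5 hzn h4
          · have h6 : z = 2 := by omega
            subst h6
            exact h25 (by rw [h4])
      · rw [cnt_cons h1.1 h1.2, if_pos (show 1 ≤ z - 1 ∧ ¬ U (Fin.cons (z - 1) q) from
          ⟨by omega, ih' q⟩)] at h3
        omega
  have keyn : ∀ q, ¬ U (Fin.cons (n : ℤ) q) := by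
    intro q hUq
    have := (hU _ hUq).2.1
    rw [ST_cons] at this
    exact this (Or.inl (Or.inr (Or.inl rfl)))
  have keyn1 : ∀ q, ¬ U (Fin.cons ((n : ℤ) - 1) q) := by
    apply h.perc (fun q => U (Fin.cons ((n : ℤ) - 1) q))
    intro q hUq
    obtain ⟨h1, h2, h3⟩ := hU _ hUq
    rw [inBox_cons] at h1
    rw [ST_cons] at h2
    push Not at h2
    refine ⟨h1.2, h2.1.2.2.1, ?_⟩
    have h4 := key (n - 3) ((n : ℤ) - 1 - 1) (by omega) (by omega) q
    have h5 : ¬ U (Fin.cons ((n : ℤ) - 1 + 1) q) := by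
      rw [show (n : ℤ) - 1 + 1 = n by ring]; exact keyn q
    rw [cnt_cons h1.1 h1.2, if_pos (show 1 ≤ (n : ℤ) - 1 - 1 ∧ _ from ⟨by omega, h4⟩),
      if_pos (show (n : ℤ) - 1 + 1 ≤ n ∧ _ from ⟨by omega, h5⟩)] at h3
    omega
  intro p hUp
  obtain ⟨z, q, rfl⟩ := exists_cons p
  have h1 := (hU _ hUp).1
  rw [inBox_cons] at h1
  by_cases h2 : z ≤ (n : ℤ) - 2
  · exact key (z - 1).toNat z (by omega) h2 q hUp
  · rcases (show z = (n : ℤ) - 1 ∨ z = n by omega) with h3 | h3
    · subst h3; exact keyn1 q hUp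
    · subst h3; exact keyn q hUp

/-- percolation of the stacked set without triggers for the smaller threshold -/
theorem stack_perc0 (h : Pair n r L T a b τa τb) : Perc n (r + 1) (ST n T a b) := by
  classical
  intro U hU
  have key : ∀ m : ℕ, ∀ z : ℤ, z = m + 1 → z ≤ n → ∀ q, ¬ U (Fin.cons z q) := by
    intro m
    induction m with
    | zero =>
      intro z hz _ q hUq
      have := (hU _ hUq).2.1
      rw [ST_cons] at this
      apply this
      left; simpa using hz
    | succ m ih =>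
      intro z hz hzn
      have ih' := ih (z - 1) (by push_cast at hz; omega) (by omega)
      have hz2 : 2 ≤ z := by push_cast at hz; omega
      apply h.perc (fun q => U (Fin.cons z q))
      intro q hUq
      obtain ⟨h1, h2, h3⟩ := hU _ hUq
      rw [inBox_cons] at h1
      rw [ST_cons] at h2
      push Not at h2
      refine ⟨h1.2, h2.2.2.1, ?_⟩
      rw [cnt_cons h1.1 h1.2, if_pos (show 1 ≤ z - 1 ∧ ¬ U (Fin.cons (z - 1) q) from
        ⟨by omega, ih' q⟩)] at h3
      omega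
  intro p hUp
  obtain ⟨z, q, rfl⟩ := exists_cons p
  have h1 := (hU _ hUp).1
  rw [inBox_cons] at h1
  exact key (z - 1).toNat z (by omega) h1.1.2 q hUp

/-- the stacked set is inert -/
theorem stack_inert (h : Pair n r L T a b τa τb) (hn : 6 ≤ n) {z : ℤ} {u : Fin d → ℤ}
    (hz : 1 ≤ z ∧ z ≤ n) (hu : InBox n u) (hST : ¬ ST n T a b (Fin.cons z u)) :
    cnt n (ST n T a b) (Fin.cons z u) ≤ r + 1 := by
  classical
  rw [ST_cons] at hST
  push Not at hST
  obtain ⟨hz1, hzn, hTu, htr⟩ := hST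
  have hP := h.pk z
  rw [cnt_cons hz hu]
  simp only [ST_cons]
  rw [pk_sub_one a b z]
  set x := Diag.pk a b z with hx
  set y := Diag.pk a b (z + 1) with hy
  have hin := hP.inert u hu hTu
  have hlev : cnt n (fun q' => z = 1 ∨ z = n ∨ T q' ∨ 3 ≤ z ∧ z ≤ (n : ℤ) - 2 ∧ q' = x) u ≤
      cnt n (fun q' => T q' ∨ q' = x) u := by
    apply cnt_mono
    intro δ _ hq
    rcases hq with hq | hq | hq | hq
    · exact absurd hq hz1
    · exact absurd hq hzn
    · exact Or.inl hq
    · exact Or.inr hq.2.2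
  have hlev2 : (z = 2 ∨ z = (n : ℤ) - 1) →
      cnt n (fun q' => z = 1 ∨ z = n ∨ T q' ∨ 3 ≤ z ∧ z ≤ (n : ℤ) - 2 ∧ q' = x) u ≤
      cnt n T u := by
    intro h3
    apply cnt_mono
    intro δ _ hq
    rcases hq with hq | hq | hq | hq
    · exact absurd hq hz1
    · exact absurd hq hzn
    · exact hq
    · omega
  set Cc := cnt n (fun q' => z = 1 ∨ z = n ∨ T q' ∨ 3 ≤ z ∧ z ≤ (n : ℤ) - 2 ∧ q' = x) u with hCc
  by_cases huy : u = y
  · have h5 : ∀ δ, nb u δ ≠ x := by
      rw [huy]; exact hP.sep_b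
    have h6 := cnt_or_eq_le' (n := n) T x u h5
    have h7 := hP.inert_b
    rw [← huy] at h7
    split_ifs <;> omega
  · by_cases h3 : z = 2 ∨ z = (n : ℤ) - 1
    · have h4 := hlev2 h3
      rcases h3 with h3 | h3
      · have hA : ¬ (z + 1 ≤ n ∧ (z + 1 = 1 ∨ z + 1 = n ∨ T u ∨
            3 ≤ z + 1 ∧ z + 1 ≤ (n : ℤ) - 2 ∧ u = y)) := by
          rintro ⟨-, hq | hq | hq | hq⟩
          · omega
          · omega
          · exact hTu hq
          · exact huy hq.2.2
        rw [if_neg hA]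
        split_ifs <;> omega
      · have hB : ¬ (1 ≤ z - 1 ∧ (z - 1 = 1 ∨ z - 1 = n ∨ T u ∨
            3 ≤ z - 1 ∧ z - 1 ≤ (n : ℤ) - 2 ∧ u = y)) := by
          rintro ⟨-, hq | hq | hq | hq⟩
          · omega
          · omega
          · exact hTu hq
          · exact huy hq.2.2
        rw [if_neg hB]
        split_ifs <;> omega
    · have hA : ¬ (z + 1 ≤ n ∧ (z + 1 = 1 ∨ z + 1 = n ∨ T u ∨
          3 ≤ z + 1 ∧ z + 1 ≤ (n : ℤ) - 2 ∧ u = y)) := by
        rintro ⟨-, hq | hq | hq | hq⟩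
        · omega
        · omega
        · exact hTu hq
        · exact huy hq.2.2
      have hB : ¬ (1 ≤ z - 1 ∧ (z - 1 = 1 ∨ z - 1 = n ∨ T u ∨
          3 ≤ z - 1 ∧ z - 1 ≤ (n : ℤ) - 2 ∧ u = y)) := by
        rintro ⟨-, hq | hq | hq | hq⟩
        · omega
        · omega
        · exact hTu hq
        · exact huy hq.2.2
      rw [if_neg hA, if_neg hB]
      have h6 := cnt_or_eq_le (n := n) T x u
      omega

/-- the stacked process from the lower trigger -/
theorem stack_half (h : Pair n r L T a b τa τb) (hn : 6 ≤ n) :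
    Half n (r + 1) (((n : ℤ) - 4) * L) (ST n T a b) (Sτ n L τa τb)
      (Fin.cons 2 (Diag.pk a b 2)) (Fin.cons ((n : ℤ) - 1) (Diag.pk a b ((n : ℤ) - 1))) := by
  have hL := h.one_le_L
  have hnL : 0 ≤ ((n : ℤ) - 5) * L := mul_nonneg (by omega) (by omega)
  have e5 : ((n : ℤ) - 4) * L = ((n : ℤ) - 5) * L + L := by ring
  refine ⟨?_, ?_, ?_, ?_, stack_perc h hn⟩
  · intro p hp hT
    obtain ⟨z, u, rfl⟩ := exists_cons p
    rw [inBox_cons] at hp
    rw [ST_cons] at hT
    push Not at hT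
    rw [Sτ_cons]
    have hr := (h.pk z).ha.range u hp.2 hT.2.2.1
    split_ifs with h3
    · have h4 : 0 ≤ (z - 2) * L := mul_nonneg (by omega) (by omega)
      have h5 : (z - 2) * L ≤ ((n : ℤ) - 5) * L :=
        mul_le_mul_of_nonneg_right (by omega) (by omega)
      omega
    · omega
  · intro p hp hT hne h2
    obtain ⟨z, u, rfl⟩ := exists_cons p
    rw [inBox_cons] at hp
    exact stack_cert h hn hp.1 hp.2 hT hne h2
  · rw [Sτ_cons, if_neg (by omega)]
  · intro δ hb hT
    obtain ⟨i, c⟩ := δ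
    revert hb hT
    refine Fin.cases ?_ (fun i => ?_) i
    · rw [nb_cons_zero]
      intro hb hT
      rw [inBox_cons] at hb
      rw [Sτ_cons, if_neg]
      cases c
      · simp only [Bool.false_eq_true, if_false]; omega
      · simp only [if_true]; omega
    · rw [nb_cons_succ]
      intro hb hT
      rw [Sτ_cons, if_neg (by omega)]

theorem ST_refl (a b : Fin d → ℤ) (T : (Fin d → ℤ) → Prop) (p : Fin (d + 1) → ℤ) :
    ST n T (Diag.pk a b n) (Diag.pk b a n) (refl0 n p) ↔ ST n T a b p := by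
  obtain ⟨z, u, rfl⟩ := exists_cons p
  have e : refl0 n (Fin.cons z u : Fin (d + 1) → ℤ) = Fin.cons ((n : ℤ) + 1 - z) u := by
    simp only [refl0, Fin.cons_zero, Fin.tail_cons]
  rw [e, ST_cons, ST_cons]
  have e2 : Diag.pk (Diag.pk a b (n : ℤ)) (Diag.pk b a (n : ℤ)) ((n : ℤ) + 1 - z) =
      Diag.pk a b z := by
    rcases Int.emod_two_eq_zero_or_one (n : ℤ) with hn | hn <;>
    rcases Int.emod_two_eq_zero_or_one z with hz | hz
    · rw [pk_odd _ _ (show ((n : ℤ) + 1 - z) % 2 = 1 by omega), pk_even _ _ hn, pk_even _ _ hz]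
    · rw [pk_even _ _ (show ((n : ℤ) + 1 - z) % 2 = 0 by omega), pk_even _ _ hn, pk_odd _ _ hz]
    · rw [pk_even _ _ (show ((n : ℤ) + 1 - z) % 2 = 0 by omega), pk_odd _ _ hn, pk_even _ _ hz]
    · rw [pk_odd _ _ (show ((n : ℤ) + 1 - z) % 2 = 1 by omega), pk_odd _ _ hn, pk_odd _ _ hz]
  rw [e2]
  constructor
  · rintro (h | h | h | h)
    · right; left; omega
    · left; omega
    · exact Or.inr (Or.inr (Or.inl h))
    · exact Or.inr (Or.inr (Or.inr ⟨by omega, by omega, h.2.2⟩))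
  · rintro (h | h | h | h)
    · right; left; omega
    · left; omega
    · exact Or.inr (Or.inr (Or.inl h))
    · exact Or.inr (Or.inr (Or.inr ⟨by omega, by omega, h.2.2⟩))

/-- **Stacking without loss.** -/
theorem Pair.stack (h : Pair n r L T a b τa τb) (hn : 6 ≤ n) :
    ∃ (T' : (Fin (d + 1) → ℤ) → Prop) (a' b' : Fin (d + 1) → ℤ)
      (τa' τb' : (Fin (d + 1) → ℤ) → ℤ),
      Pair n (r + 1) (((n : ℤ) - 4) * L) T' a' b' τa' τb' := by
  classical
  set A := Diag.pk a b (n : ℤ) with hA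
  set B := Diag.pk b a (n : ℤ) with hB
  set σA := Diag.pk τa τb (n : ℤ) with hσA
  set σB := Diag.pk τb τa (n : ℤ) with hσB
  have hAB : Pair n r L T A B σA σB := by
    rcases Int.emod_two_eq_zero_or_one (n : ℤ) with hn | hn
    · rw [hA, hB, hσA, hσB, pk_even _ _ hn, pk_even _ _ hn, pk_even _ _ hn, pk_even _ _ hn]
      exact h.symm
    · rw [hA, hB, hσA, hσB, pk_odd _ _ hn, pk_odd _ _ hn, pk_odd _ _ hn, pk_odd _ _ hn]
      exact h
  have h1 := stack_half h hn
  have h2 := (stack_half hAB hn).map (refl0 n) refl0_refl0 inBox_refl0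
    (fun Q p _ => cnt_refl0 Q p) nb_refl0'
  have eT : (fun p => ST n T A B (refl0 n p)) = ST n T a b := by
    funext p
    exact propext (ST_refl a b T p)
  have e1 : refl0 n (Fin.cons 2 (Diag.pk A B 2) : Fin (d + 1) → ℤ) =
      Fin.cons ((n : ℤ) - 1) (Diag.pk a b ((n : ℤ) - 1)) := by
    simp only [refl0, Fin.cons_zero, Fin.tail_cons]
    rw [show (n : ℤ) + 1 - 2 = (n : ℤ) - 1 by ring]
    congr 1
    rw [hA, hB]
    rcases Int.emod_two_eq_zero_or_one (n : ℤ) with hn | hn
    · rw [pk_even _ _ (show (2 : ℤ) % 2 = 0 by norm_num), pk_even _ _ hn,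
        pk_odd _ _ (show ((n : ℤ) - 1) % 2 = 1 by omega)]
    · rw [pk_even _ _ (show (2 : ℤ) % 2 = 0 by norm_num), pk_odd _ _ hn,
        pk_even _ _ (show ((n : ℤ) - 1) % 2 = 0 by omega)]
  have e2 : refl0 n (Fin.cons ((n : ℤ) - 1) (Diag.pk A B ((n : ℤ) - 1)) : Fin (d + 1) → ℤ) =
      Fin.cons 2 (Diag.pk a b 2) := by
    simp only [refl0, Fin.cons_zero, Fin.tail_cons]
    rw [show (n : ℤ) + 1 - ((n : ℤ) - 1) = 2 by ring]
    congr 1
    rw [hA, hB]
    rcases Int.emod_two_eq_zero_or_one (n : ℤ) with hn | hn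
    · rw [pk_odd _ _ (show ((n : ℤ) - 1) % 2 = 1 by omega), pk_even _ _ hn,
        pk_even _ _ (show (2 : ℤ) % 2 = 0 by norm_num)]
    · rw [pk_even _ _ (show ((n : ℤ) - 1) % 2 = 0 by omega), pk_odd _ _ hn,
        pk_even _ _ (show (2 : ℤ) % 2 = 0 by norm_num)]
  rw [e1, e2, eT] at h2
  have hP2 := h.pk 2
  have hPn := h.pk ((n : ℤ) - 1)
  refine ⟨ST n T a b, Fin.cons 2 (Diag.pk a b 2),
    Fin.cons ((n : ℤ) - 1) (Diag.pk a b ((n : ℤ) - 1)), Sτ n L τa τb,
    fun p => Sτ n L σA σB (refl0 n p), ?_, ?_, ?_, ?_, ?_, ?_, ?_, ?_, ?_, ?_,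
    stack_perc0 h, h1, h2⟩
  · rw [inBox_cons]; exact ⟨by omega, hP2.box_a⟩
  · rw [inBox_cons]; exact ⟨by omega, hPn.box_a⟩
  · rw [ST_cons]
    rintro (h3 | h3 | h3 | h3)
    · omega
    · omega
    · exact hP2.not_a h3
    · omega
  · rw [ST_cons]
    rintro (h3 | h3 | h3 | h3)
    · omega
    · omega
    · exact hPn.not_a h3
    · omega
  · intro h3
    rw [cons_eq_iff] at h3
    omega
  · rintro ⟨i, c⟩
    refine Fin.cases ?_ (fun i => ?_) i
    · rw [nb_cons_zero]
      intro h3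
      rw [cons_eq_iff] at h3
      cases c
      · simp only [Bool.false_eq_true, if_false] at h3; omega
      · simp only [if_true] at h3; omega
    · rw [nb_cons_succ]
      intro h3
      rw [cons_eq_iff] at h3
      omega
  · rintro ⟨i, c⟩
    refine Fin.cases ?_ (fun i => ?_) i
    · rw [nb_cons_zero]
      intro h3
      rw [cons_eq_iff] at h3
      cases c
      · simp only [Bool.false_eq_true, if_false] at h3; omega
      · simp only [if_true] at h3; omega
    · rw [nb_cons_succ]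
      intro h3
      rw [cons_eq_iff] at h3
      omega
  · intro p hp hT
    obtain ⟨z, u, rfl⟩ := exists_cons p
    rw [inBox_cons] at hp
    exact stack_inert h hn hp.1 hp.2 hT
  · have h3 : cnt n (fun q' => ST n T a b (Fin.cons 2 q')) (Diag.pk a b 2) ≤
        cnt n T (Diag.pk a b 2) := by
      apply cnt_mono
      intro δ _ hq
      rw [ST_cons] at hq
      rcases hq with hq | hq | hq | hq
      · omega
      · omega
      · exact hq
      · omega
    have h4 : ¬ ((2 : ℤ) + 1 ≤ n ∧ ST n T a b (Fin.cons (2 + 1) (Diag.pk a b 2))) := by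
      rintro ⟨-, hq⟩
      rw [ST_cons] at hq
      rcases hq with hq | hq | hq | hq
      · omega
      · omega
      · exact hP2.not_a hq
      · exact hP2.ne hq.2.2
    rw [cnt_cons ⟨by omega, by omega⟩ hP2.box_a, if_neg h4]
    have h5 := hP2.inert_a
    split_ifs <;> omega
  · have h3 : cnt n (fun q' => ST n T a b (Fin.cons ((n : ℤ) - 1) q'))
        (Diag.pk a b ((n : ℤ) - 1)) ≤ cnt n T (Diag.pk a b ((n : ℤ) - 1)) := by
      apply cnt_mono
      intro δ _ hq
      rw [ST_cons] at hq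
      rcases hq with hq | hq | hq | hq
      · omega
      · omega
      · exact hq
      · omega
    have h4 : ¬ ((1 : ℤ) ≤ (n : ℤ) - 1 - 1 ∧ ST n T a b (Fin.cons ((n : ℤ) - 1 - 1)
        (Diag.pk a b ((n : ℤ) - 1)))) := by
      rintro ⟨-, hq⟩
      rw [ST_cons, pk_sub_one a b ((n : ℤ) - 1)] at hq
      rcases hq with hq | hq | hq | hq
      · omega
      · omega
      · exact hPn.not_a hq
      · exact hPn.ne hq.2.2
    rw [cnt_cons ⟨by omega, by omega⟩ hPn.box_a, if_neg h4]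
    have h5 := hPn.inert_a
    split_ifs <;> omega

end

end Pool.Agent.Lib.MP_1a3405_co.Diag
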