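import Mathlib
import Pool.Agent.Lib.MP_1a3405_co.Diag.Stack

/-!
Layer coordinates in dimension three: in the even levels a point is written `(k, j)`, in the odd
levels `(j, k)`; so the vertical neighbours of `(k, j, z)` are `(j, k, z ± 1)`.
-/

namespace Pool.Agent.Lib.MP_1a3405_co.Diag

open Pool.Agent.Lib.MP_1a3405_co Pool.Agent.Lib.MP_1a3405_co.Ord

variable {n : ℕ}

/-- the point of level `z` with layer coordinates `k, j` -/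
def c3 (k j z : ℤ) : Fin 3 → ℤ := if z % 2 = 0 then ![z, k, j] else ![z, j, k]

/-- first layer coordinate -/
def kk (p : Fin 3 → ℤ) : ℤ := if p 0 % 2 = 0 then p 1 else p 2

/-- second layer coordinate -/
def jj (p : Fin 3 → ℤ) : ℤ := if p 0 % 2 = 0 then p 2 else p 1

@[simp] lemma c3_zero (k j z : ℤ) : c3 k j z 0 = z := by
  rw [c3]; split_ifs <;> rfl

@[simp] lemma kk_c3 (k j z : ℤ) : kk (c3 k j z) = k := by
  rw [kk, c3_zero, c3]; split_ifs <;> rfl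

@[simp] lemma jj_c3 (k j z : ℤ) : jj (c3 k j z) = j := by
  rw [jj, c3_zero, c3]; split_ifs <;> rfl

lemma c3_kk_jj (p : Fin 3 → ℤ) : c3 (kk p) (jj p) (p 0) = p := by
  rw [c3, kk, jj]
  funext i
  split_ifs <;> fin_cases i <;> rfl

lemma exists_c3 (p : Fin 3 → ℤ) : ∃ k j z, p = c3 k j z := ⟨kk p, jj p, p 0, (c3_kk_jj p).symm⟩

lemma c3_inj {k j z k' j' z' : ℤ} : c3 k j z = c3 k' j' z' ↔ k = k' ∧ j = j' ∧ z = z' := by
  constructor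
  · intro h
    have h0 := congrFun h 0
    have h1 := congrArg kk h
    have h2 := congrArg jj h
    rw [c3_zero, c3_zero] at h0
    rw [kk_c3, kk_c3] at h1
    rw [jj_c3, jj_c3] at h2
    exact ⟨h1, h2, h0⟩
  · rintro ⟨rfl, rfl, rfl⟩
    rfl

lemma inBox_c3 (k j z : ℤ) :
    InBox n (c3 k j z) ↔ (1 ≤ k ∧ k ≤ n) ∧ (1 ≤ j ∧ j ≤ n) ∧ (1 ≤ z ∧ z ≤ n) := by
  rw [InBox, Fin.forall_fin_succ, Fin.forall_fin_succ, Fin.forall_fin_succ]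
  rw [c3]
  split_ifs with h
  · simp
    tauto
  · simp
    tauto

lemma nb_c3_z (k j z : ℤ) (b : Bool) :
    nb (c3 k j z) (0, b) = c3 j k (z + if b then 1 else -1) := by
  funext i
  by_cases h : z % 2 = 0
  · have h' : ¬ (z + if b then 1 else -1) % 2 = 0 := by
      cases b
      · simp only [Bool.false_eq_true, if_false]; omega
      · simp only [if_true]; omega
    rw [c3, c3, if_pos h, if_neg h']
    fin_cases i <;> simp [nb]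
  · have h' : (z + if b then 1 else -1) % 2 = 0 := by
      cases b
      · simp only [Bool.false_eq_true, if_false]; omega
      · simp only [if_true]; omega
    rw [c3, c3, if_neg h, if_pos h']
    fin_cases i <;> simp [nb]

lemma nb_c3_one (k j z : ℤ) (b : Bool) :
    nb (c3 k j z) (1, b) = if z % 2 = 0 then c3 (k + if b then 1 else -1) j z else
      c3 k (j + if b then 1 else -1) z := by
  funext i
  by_cases h : z % 2 = 0
  · simp only [c3, if_pos h]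
    fin_cases i <;> simp [nb]
  · simp only [c3, if_neg h]
    fin_cases i <;> simp [nb]

lemma nb_c3_two (k j z : ℤ) (b : Bool) :
    nb (c3 k j z) (2, b) = if z % 2 = 0 then c3 k (j + if b then 1 else -1) z else
      c3 (k + if b then 1 else -1) j z := by
  funext i
  by_cases h : z % 2 = 0
  · simp only [c3, if_pos h]
    fin_cases i <;> simp [nb]
  · simp only [c3, if_neg h]
    fin_cases i <;> simp [nb]

open Classical in
/-- counting the neighbours in layer coordinates -/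
lemma cnt_c3 (Q : (Fin 3 → ℤ) → Prop) {k j z : ℤ} (hk : 1 ≤ k ∧ k ≤ n) (hj : 1 ≤ j ∧ j ≤ n)
    (hz : 1 ≤ z ∧ z ≤ n) :
    cnt n Q (c3 k j z) =
      (if k + 1 ≤ n ∧ Q (c3 (k + 1) j z) then 1 else 0) +
      (if 1 ≤ k - 1 ∧ Q (c3 (k - 1) j z) then 1 else 0) +
      (if j + 1 ≤ n ∧ Q (c3 k (j + 1) z) then 1 else 0) +
      (if 1 ≤ j - 1 ∧ Q (c3 k (j - 1) z) then 1 else 0) +
      (if z + 1 ≤ n ∧ Q (c3 j k (z + 1)) then 1 else 0) +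
      (if 1 ≤ z - 1 ∧ Q (c3 j k (z - 1)) then 1 else 0) := by
  have e1 : (InBox n (c3 (k + 1) j z) ∧ Q (c3 (k + 1) j z)) ↔
      (k + 1 ≤ n ∧ Q (c3 (k + 1) j z)) := by
    rw [inBox_c3]
    exact ⟨fun h => ⟨h.1.1.2, h.2⟩, fun h => ⟨⟨⟨by omega, h.1⟩, hj, hz⟩, h.2⟩⟩
  have e2 : (InBox n (c3 (k - 1) j z) ∧ Q (c3 (k - 1) j z)) ↔
      (1 ≤ k - 1 ∧ Q (c3 (k - 1) j z)) := by
    rw [inBox_c3]
    exact ⟨fun h => ⟨h.1.1.1, h.2⟩, fun h => ⟨⟨⟨h.1, by omega⟩, hj, hz⟩, h.2⟩⟩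
  have e3 : (InBox n (c3 k (j + 1) z) ∧ Q (c3 k (j + 1) z)) ↔
      (j + 1 ≤ n ∧ Q (c3 k (j + 1) z)) := by
    rw [inBox_c3]
    exact ⟨fun h => ⟨h.1.2.1.2, h.2⟩, fun h => ⟨⟨hk, ⟨by omega, h.1⟩, hz⟩, h.2⟩⟩
  have e4 : (InBox n (c3 k (j - 1) z) ∧ Q (c3 k (j - 1) z)) ↔
      (1 ≤ j - 1 ∧ Q (c3 k (j - 1) z)) := by
    rw [inBox_c3]
    exact ⟨fun h => ⟨h.1.2.1.1, h.2⟩, fun h => ⟨⟨hk, ⟨h.1, by omega⟩, hz⟩, h.2⟩⟩
  have e5 : (InBox n (c3 j k (z + 1)) ∧ Q (c3 j k (z + 1))) ↔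
      (z + 1 ≤ n ∧ Q (c3 j k (z + 1))) := by
    rw [inBox_c3]
    exact ⟨fun h => ⟨h.1.2.2.2, h.2⟩, fun h => ⟨⟨hj, hk, by omega, h.1⟩, h.2⟩⟩
  have e6 : (InBox n (c3 j k (z - 1)) ∧ Q (c3 j k (z - 1))) ↔
      (1 ≤ z - 1 ∧ Q (c3 j k (z - 1))) := by
    rw [inBox_c3]
    exact ⟨fun h => ⟨h.1.2.2.1, h.2⟩, fun h => ⟨⟨hj, hk, h.1, by omega⟩, h.2⟩⟩
  simp only [cnt, Fin.sum_univ_three, Fintype.sum_bool]
  rw [nb_c3_z, nb_c3_z, nb_c3_one, nb_c3_one, nb_c3_two, nb_c3_two]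
  simp only [if_true, Bool.false_eq_true, if_false, ← sub_eq_add_neg]
  by_cases h : z % 2 = 0
  · simp only [if_pos h, e1, e2, e3, e4, e5, e6]
    ring
  · simp only [if_neg h, e1, e2, e3, e4, e5, e6]
    ring

/-- reflection of the levels in layer coordinates -/
def R3 (n : ℕ) (p : Fin 3 → ℤ) : Fin 3 → ℤ := c3 (kk p) (jj p) ((n : ℤ) + 1 - p 0)

lemma R3_c3 (k j z : ℤ) : R3 n (c3 k j z) = c3 k j ((n : ℤ) + 1 - z) := by
  rw [R3, kk_c3, jj_c3, c3_zero]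

lemma R3_R3 (p : Fin 3 → ℤ) : R3 n (R3 n p) = p := by
  obtain ⟨k, j, z, rfl⟩ := exists_c3 p
  rw [R3_c3, R3_c3]
  congr 1
  ring

lemma inBox_R3 (p : Fin 3 → ℤ) (h : InBox n p) : InBox n (R3 n p) := by
  obtain ⟨k, j, z, rfl⟩ := exists_c3 p
  rw [R3_c3]
  rw [inBox_c3] at h ⊢
  exact ⟨h.1, h.2.1, by omega, by omega⟩

lemma cnt_R3 (Q : (Fin 3 → ℤ) → Prop) (p : Fin 3 → ℤ) (hp : InBox n p) :
    cnt n (fun q => Q (R3 n q)) p = cnt n Q (R3 n p) := by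
  classical
  obtain ⟨k, j, z, rfl⟩ := exists_c3 p
  rw [inBox_c3] at hp
  rw [R3_c3, cnt_c3 _ hp.1 hp.2.1 hp.2.2, cnt_c3 _ hp.1 hp.2.1 (by omega)]
  simp only [R3_c3]
  rw [show (n : ℤ) + 1 - (z + 1) = (n : ℤ) + 1 - z - 1 by ring,
    show (n : ℤ) + 1 - (z - 1) = (n : ℤ) + 1 - z + 1 by ring]
  have e1 : (z + 1 ≤ n ∧ Q (c3 j k ((n : ℤ) + 1 - z - 1))) ↔
      (1 ≤ (n : ℤ) + 1 - z - 1 ∧ Q (c3 j k ((n : ℤ) + 1 - z - 1))) := by
    constructor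
    · rintro ⟨h1, h2⟩; exact ⟨by omega, h2⟩
    · rintro ⟨h1, h2⟩; exact ⟨by omega, h2⟩
  have e2 : (1 ≤ z - 1 ∧ Q (c3 j k ((n : ℤ) + 1 - z + 1))) ↔
      ((n : ℤ) + 1 - z + 1 ≤ n ∧ Q (c3 j k ((n : ℤ) + 1 - z + 1))) := by
    constructor
    · rintro ⟨h1, h2⟩; exact ⟨by omega, h2⟩
    · rintro ⟨h1, h2⟩; exact ⟨by omega, h2⟩
  simp only [e1, e2]
  ring

lemma nb_R3 (p : Fin 3 → ℤ) (δ : Fin 3 × Bool) : ∃ δ', R3 n (nb p δ) = nb (R3 n p) δ' := by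
  obtain ⟨k, j, z, rfl⟩ := exists_c3 p
  obtain ⟨i, b⟩ := δ
  by_cases hz : z % 2 = 0 <;> by_cases hz' : ((n : ℤ) + 1 - z) % 2 = 0 <;>
  fin_cases i
  · refine ⟨(0, !b), ?_⟩
    rw [R3_c3]
    change R3 n (nb _ (0, b)) = _
    rw [nb_c3_z, nb_c3_z, R3_c3]
    congr 1
    cases b <;> simp <;> ring
  · refine ⟨(1, b), ?_⟩
    rw [R3_c3]
    change R3 n (nb _ (1, b)) = _
    rw [nb_c3_one, nb_c3_one, if_pos hz, if_pos hz', R3_c3]
  · refine ⟨(2, b), ?_⟩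
    rw [R3_c3]
    change R3 n (nb _ (2, b)) = _
    rw [nb_c3_two, nb_c3_two, if_pos hz, if_pos hz', R3_c3]
  · refine ⟨(0, !b), ?_⟩
    rw [R3_c3]
    change R3 n (nb _ (0, b)) = _
    rw [nb_c3_z, nb_c3_z, R3_c3]
    congr 1
    cases b <;> simp <;> ring
  · refine ⟨(2, b), ?_⟩
    rw [R3_c3]
    change R3 n (nb _ (1, b)) = _
    rw [nb_c3_one, nb_c3_two, if_pos hz, if_neg hz', R3_c3]
  · refine ⟨(1, b), ?_⟩
    rw [R3_c3]
    change R3 n (nb _ (2, b)) = _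
    rw [nb_c3_two, nb_c3_one, if_pos hz, if_neg hz', R3_c3]
  · refine ⟨(0, !b), ?_⟩
    rw [R3_c3]
    change R3 n (nb _ (0, b)) = _
    rw [nb_c3_z, nb_c3_z, R3_c3]
    congr 1
    cases b <;> simp <;> ring
  · refine ⟨(2, b), ?_⟩
    rw [R3_c3]
    change R3 n (nb _ (1, b)) = _
    rw [nb_c3_one, nb_c3_two, if_neg hz, if_pos hz', R3_c3]
  · refine ⟨(1, b), ?_⟩
    rw [R3_c3]
    change R3 n (nb _ (2, b)) = _
    rw [nb_c3_two, nb_c3_one, if_neg hz, if_pos hz', R3_c3]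
  · refine ⟨(0, !b), ?_⟩
    rw [R3_c3]
    change R3 n (nb _ (0, b)) = _
    rw [nb_c3_z, nb_c3_z, R3_c3]
    congr 1
    cases b <;> simp <;> ring
  · refine ⟨(1, b), ?_⟩
    rw [R3_c3]
    change R3 n (nb _ (1, b)) = _
    rw [nb_c3_one, nb_c3_one, if_neg hz, if_neg hz', R3_c3]
  · refine ⟨(2, b), ?_⟩
    rw [R3_c3]
    change R3 n (nb _ (2, b)) = _
    rw [nb_c3_two, nb_c3_two, if_neg hz, if_neg hz', R3_c3]

end Pool.Agent.Lib.MP_1a3405_co.Diag
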