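import Mathlib
import Pool.Agent.Lib.MP_1a3405_co.Diag.Coord

/-!
The initial set in dimension three: alternating layers, swept line by line, the lines being started
by points of the neighbouring layers. The local certificate.
-/

namespace Pool.Agent.Lib.MP_1a3405_co.Diag

open Pool.Agent.Lib.MP_1a3405_co Pool.Agent.Lib.MP_1a3405_co.Ord

variable {n : ℕ}

/-- initially infected points of a regular layer, in layer coordinates -/
def S3 (n : ℕ) (k j : ℤ) : Prop :=
  (k ≤ 2 ∧ j ≤ 2) ∨ (k = 1 ∧ (j % 2 = 0 ∨ j = (n : ℤ) - 2 ∨ j = n) ∧ j ≠ (n : ℤ) - 1) ∨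
    (k = n ∧ (j % 2 = 1 ∨ j = (n : ℤ) - 2 ∨ j = n) ∧ j ≠ (n : ℤ) - 1)

/-- the initially infected points, in layer coordinates -/
def T3 (n : ℕ) (k j z : ℤ) : Prop :=
  z = 1 ∨ z = n ∨ ((z = 2 ∨ z = (n : ℤ) - 1) ∧ k = n) ∨
    (3 ≤ z ∧ z ≤ (n : ℤ) - 2 ∧ S3 n k j)

/-- the initially infected set -/
def TT (n : ℕ) (p : Fin 3 → ℤ) : Prop := T3 n (kk p) (jj p) (p 0)

lemma TT_c3 (k j z : ℤ) : TT n (c3 k j z) ↔ T3 n k j z := by
  rw [TT, kk_c3, jj_c3, c3_zero]

/-- time inside a layer -/
def g3 (n : ℕ) (k j : ℤ) : ℤ :=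
  if k ≤ 3 then 0 else if k ≤ (n : ℤ) - 4 then
    (k - 4) * n + (if k % 2 = 0 then j - 1 else (n : ℤ) - j) else ((n : ℤ) - 7) * n

/-- untruncated times -/
def f3 (n : ℕ) (k j z : ℤ) : ℤ :=
  if k = 1 ∨ k = 2 ∨ k = n then (z - 4) * (((n : ℤ) - 7) * n) + 1 - ((n : ℤ) - 7) * n + g3 n j k
  else (z - 4) * (((n : ℤ) - 7) * n) + 1 + g3 n k j

/-- the total time -/
def L3 (n : ℕ) : ℤ := ((n : ℤ) - 8) * (((n : ℤ) - 7) * n) + 1

/-- the times -/
def τ3 (n : ℕ) (p : Fin 3 → ℤ) : ℤ := max 1 (min (L3 n) (f3 n (kk p) (jj p) (p 0)))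

lemma τ3_c3 (k j z : ℤ) : τ3 n (c3 k j z) = max 1 (min (L3 n) (f3 n k j z)) := by
  rw [τ3, kk_c3, jj_c3, c3_zero]

section facts
variable {k j z : ℤ}

lemma S3_mid (h1 : 3 ≤ k) (h2 : k ≤ (n : ℤ) - 1) : ¬ S3 n k j := by
  rintro (h | h | h) <;> omega

lemma S3_two (hn : 10 ≤ n) (h : 3 ≤ j) : ¬ S3 n 2 j := by
  rintro (h | h | h) <;> omega

lemma S3_col1 (h1 : 3 ≤ k) (h2 : k ≤ (n : ℤ) - 1) : ¬ S3 n k 1 := S3_mid h1 h2

lemma S3_left (h3 : k ≤ n) (h : ¬ S3 n 1 k) : 3 ≤ k ∧ k ≤ (n : ℤ) - 1 := by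
  unfold S3 at h
  push Not at h
  obtain ⟨h4, h5, -⟩ := h
  have h6 := h4 (by norm_num)
  by_contra hcon
  have h7 : k = n := by omega
  exact absurd h5 (by
    push Not
    exact ⟨rfl, Or.inr (Or.inr h7), by omega⟩)

lemma S3_right (hn : 10 ≤ n) (h1 : 1 ≤ k) (h3 : k ≤ n) (h : ¬ S3 n n k) :
    2 ≤ k ∧ k ≤ (n : ℤ) - 1 := by
  constructor
  · by_contra hcon
    exact h (Or.inr (Or.inr ⟨rfl, Or.inl (by omega), by omega⟩))
  · by_contra hcon
    exact h (Or.inr (Or.inr ⟨rfl, Or.inr (Or.inr (by omega)), by omega⟩))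

lemma g3_small (h : k ≤ 3) : g3 n k j = 0 := if_pos h

lemma g3_mid (h : 4 ≤ k) (h' : k ≤ (n : ℤ) - 4) :
    g3 n k j = (k - 4) * n + (if k % 2 = 0 then j - 1 else (n : ℤ) - j) := by
  rw [g3, if_neg (by omega), if_pos h']

lemma g3_big (hn : 10 ≤ n) (h : (n : ℤ) - 3 ≤ k) : g3 n k j = ((n : ℤ) - 7) * n := by
  rw [g3, if_neg (by omega), if_neg (by omega)]

lemma g3_nonneg (hn : 10 ≤ n) (h1 : 1 ≤ j) (h2 : j ≤ n) : 0 ≤ g3 n k j := by
  by_cases h3 : k ≤ 3
  · rw [g3_small h3]
  · by_cases h4 : k ≤ (n : ℤ) - 4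
    · rw [g3_mid (by omega) h4]
      have : 0 ≤ (k - 4) * (n : ℤ) := mul_nonneg (by omega) (by omega)
      split_ifs <;> omega
    · rw [g3_big hn (by omega)]
      exact mul_nonneg (by omega) (by omega)

lemma g3_le (hn : 10 ≤ n) (h1 : 1 ≤ j) (h2 : j ≤ n) : g3 n k j ≤ ((n : ℤ) - 7) * n := by
  have hP : 0 ≤ ((n : ℤ) - 7) * n := mul_nonneg (by omega) (by omega)
  by_cases h3 : k ≤ 3
  · rw [g3_small h3]; exact hP
  · by_cases h4 : k ≤ (n : ℤ) - 4
    · rw [g3_mid (by omega) h4]
      have h5 : (k - 4) * (n : ℤ) ≤ ((n : ℤ) - 8) * n :=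
        mul_le_mul_of_nonneg_right (by omega) (by omega)
      have h6 : ((n : ℤ) - 7) * n = ((n : ℤ) - 8) * n + n := by ring
      split_ifs <;> omega
    · rw [g3_big hn (by omega)]

lemma g3_step (hn : 10 ≤ n) : g3 n k (j + 1) ≤ g3 n k j + 1 ∧ g3 n k j ≤ g3 n k (j + 1) + 1 := by
  by_cases h3 : k ≤ 3
  · rw [g3_small h3, g3_small h3]; omega
  · by_cases h4 : k ≤ (n : ℤ) - 4
    · rw [g3_mid (by omega) h4, g3_mid (by omega) h4]
      split_ifs <;> omega
    · rw [g3_big hn (by omega), g3_big hn (by omega)]; omega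

lemma g3_mono (hn : 10 ≤ n) (h1 : 1 ≤ j) (h2 : j ≤ n) : g3 n k j ≤ g3 n (k + 1) j := by
  by_cases h3 : k ≤ 3
  · rw [g3_small h3]; exact g3_nonneg hn h1 h2
  · by_cases h4 : k + 1 ≤ (n : ℤ) - 4
    · rw [g3_mid (by omega) (by omega), g3_mid (by omega) h4]
      have h6 : (k + 1 - 4) * (n : ℤ) = (k - 4) * n + n := by ring
      split_ifs <;> omega
    · rw [g3_big hn (show (n : ℤ) - 3 ≤ k + 1 by omega)]
      exact g3_le hn h1 h2

lemma g3_even (hn : 10 ≤ n) (h1 : 3 ≤ k) (h2 : k ≤ (n : ℤ) - 3) (h : k % 2 = 0) :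
    g3 n k 1 ≤ g3 n (k - 1) 1 + 1 := by
  by_cases h3 : k = 4
  · subst h3
    rw [g3_mid (by omega) (by omega), g3_small (by omega)]
    simp
  · by_cases h4 : k ≤ (n : ℤ) - 4
    · rw [g3_mid (by omega) h4, g3_mid (by omega) (by omega), if_pos h, if_neg (by omega)]
      have h6 : (k - 1 - 4) * (n : ℤ) = (k - 4) * n - n := by ring
      omega
    · have h5 : k = (n : ℤ) - 3 := by omega
      rw [g3_big hn (by omega), g3_mid (by omega) (by omega), if_neg (by omega), h5]
      have h6 : ((n : ℤ) - 3 - 1 - 4) * (n : ℤ) = ((n : ℤ) - 7) * n - n := by ring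
      omega

lemma g3_odd (hn : 10 ≤ n) (h1 : 3 ≤ k) (h2 : k ≤ (n : ℤ) - 3) (h : k % 2 = 1) :
    g3 n k n ≤ g3 n (k - 1) n + 1 := by
  by_cases h3 : k = 3
  · subst h3
    rw [g3_small (by omega), g3_small (by omega)]
    omega
  · by_cases h4 : k ≤ (n : ℤ) - 4
    · rw [g3_mid (by omega) h4, g3_mid (by omega) (by omega), if_neg (by omega),
        if_pos (by omega)]
      have h6 : (k - 1 - 4) * (n : ℤ) = (k - 4) * n - n := by ring
      omega
    · have h5 : k = (n : ℤ) - 3 := by omega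
      rw [g3_big hn (by omega), g3_mid (by omega) (by omega), if_pos (by omega), h5]
      have h6 : ((n : ℤ) - 3 - 1 - 4) * (n : ℤ) = ((n : ℤ) - 7) * n - n := by ring
      omega

lemma f3_wall (h : k = 1 ∨ k = 2 ∨ k = n) :
    f3 n k j z = (z - 4) * (((n : ℤ) - 7) * n) + 1 - ((n : ℤ) - 7) * n + g3 n j k := if_pos h

lemma f3_mid (h1 : 3 ≤ k) (h2 : k ≤ (n : ℤ) - 1) :
    f3 n k j z = (z - 4) * (((n : ℤ) - 7) * n) + 1 + g3 n k j := if_neg (by omega)

end facts

/-- the regular certificate -/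
theorem reg_le (hn : 10 ≤ n) {k j z : ℤ} (hk : 1 ≤ k ∧ k ≤ n) (hj : 1 ≤ j ∧ j ≤ n)
    (hS : ¬ S3 n k j) {x1 x2 x3 x4 x5 x6 : ℕ} (l1 : x1 ≤ 1) (l2 : x2 ≤ 1) (l3 : x3 ≤ 1)
    (l4 : x4 ≤ 1) (l5 : x5 ≤ 1) (l6 : x6 ≤ 1)
    (h1 : ¬ (k + 1 ≤ n ∧ (S3 n (k + 1) j ∨ f3 n (k + 1) j z + 2 ≤ f3 n k j z)) → x1 = 0)
    (h2 : ¬ (1 ≤ k - 1 ∧ (S3 n (k - 1) j ∨ f3 n (k - 1) j z + 2 ≤ f3 n k j z)) → x2 = 0)
    (h3 : ¬ (j + 1 ≤ n ∧ (S3 n k (j + 1) ∨ f3 n k (j + 1) z + 2 ≤ f3 n k j z)) → x3 = 0)
    (h4 : ¬ (1 ≤ j - 1 ∧ (S3 n k (j - 1) ∨ f3 n k (j - 1) z + 2 ≤ f3 n k j z)) → x4 = 0)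
    (h5 : ¬ (S3 n j k ∨ f3 n j k (z + 1) + 2 ≤ f3 n k j z) → x5 = 0)
    (h6 : ¬ (S3 n j k ∨ f3 n j k (z - 1) + 2 ≤ f3 n k j z) → x6 = 0) :
    x1 + x2 + x3 + x4 + x5 + x6 ≤ 2 := by
  have eu : (z + 1 - 4) * (((n : ℤ) - 7) * n) = (z - 4) * (((n : ℤ) - 7) * n) +
      ((n : ℤ) - 7) * n := by ring
  have ed : (z - 1 - 4) * (((n : ℤ) - 7) * n) = (z - 4) * (((n : ℤ) - 7) * n) -
      ((n : ℤ) - 7) * n := by ring
  have fw : ∀ {k j z : ℤ}, (k = 1 ∨ k = 2 ∨ k = n) → f3 n k j z =
      (z - 4) * (((n : ℤ) - 7) * n) + 1 - ((n : ℤ) - 7) * n + g3 n j k := fun h => f3_wall h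
  have fm : ∀ {k j z : ℤ}, 3 ≤ k → k ≤ (n : ℤ) - 1 → f3 n k j z =
      (z - 4) * (((n : ℤ) - 7) * n) + 1 + g3 n k j := fun h h' => f3_mid h h'
  have gb : ∀ {k j : ℤ}, (n : ℤ) - 3 ≤ k → g3 n k j = ((n : ℤ) - 7) * n :=
    fun h => g3_big hn h
  have gl : ∀ {k j : ℤ}, 1 ≤ j → j ≤ n → g3 n k j ≤ ((n : ℤ) - 7) * n :=
    fun h h' => g3_le hn h h'
  set P : ℤ := ((n : ℤ) - 7) * n with hP
  have hP0 : 0 ≤ P := mul_nonneg (by omega) (by omega)
  by_cases hA : 3 ≤ k ∧ k ≤ (n : ℤ) - 1
  · obtain ⟨hk3, hkn⟩ := hA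
    have ef : f3 n k j z = (z - 4) * P + 1 + g3 n k j := fm hk3 hkn
    have y3 : x3 = 0 := by
      apply h3
      rintro ⟨-, h | h⟩
      · exact S3_mid hk3 hkn h
      · rw [fm hk3 hkn, fm hk3 hkn] at h
        have := (g3_step (k := k) (j := j) hn).2
        omega
    have y4 : x4 = 0 := by
      apply h4
      rintro ⟨-, h | h⟩
      · exact S3_mid hk3 hkn h
      · rw [fm hk3 hkn, fm hk3 hkn] at h
        have := (g3_step (k := k) (j := j - 1) hn).1
        rw [sub_add_cancel] at this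
        omega
    have y5 : ¬ S3 n j k → x5 = 0 := by
      intro hS'
      apply h5
      rintro (h | h)
      · exact hS' h
      · by_cases hj2 : j = 1 ∨ j = 2 ∨ j = n
        · rw [fw hj2, ef, eu] at h
          omega
        · rw [fm (by omega) (by omega), ef, eu] at h
          have a1 := g3_nonneg (k := j) hn hk.1 hk.2
          have a2 := gl (k := k) hj.1 hj.2
          omega
    by_cases hk1 : k = (n : ℤ) - 1
    · have y5' : x5 = 0 := by
        apply y5
        rw [hk1]
        rintro (h | h | h) <;> omega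
      have y2 : x2 = 0 := by
        apply h2
        rintro ⟨-, h | h⟩
        · exact S3_mid (by omega) (by omega) h
        · rw [fm (by omega) (by omega), ef, gb (by omega), gb (by omega)] at h
          omega
      omega
    · have y1 : x1 = 0 := by
        apply h1
        rintro ⟨-, h | h⟩
        · exact S3_mid (by omega) (by omega) h
        · rw [fm (by omega) (by omega), ef] at h
          have := g3_mono (k := k) hn hj.1 hj.2
          omega
      by_cases hS' : S3 n j k
      · have hcase : (j = 1 ∧ (k % 2 = 0 ∨ k = (n : ℤ) - 2)) ∨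
            (j = n ∧ (k % 2 = 1 ∨ k = (n : ℤ) - 2)) := by
          rcases hS' with h | h | h
          · omega
          · left; exact ⟨h.1, by omega⟩
          · right; exact ⟨h.1, by omega⟩
        have y2 : x2 = 0 := by
          apply h2
          rintro ⟨-, h | h⟩
          · by_cases hk4 : k = 3
            · have hjn : j = n := by omega
              rw [hk4, hjn] at h
              exact S3_two hn (by omega) h
            · exact S3_mid (by omega) (by omega) h
          · by_cases hk4 : k = 3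
            · have hjn : j = n := by omega
              rw [ef, fw (by omega), hk4, hjn, g3_small (by omega : (3 : ℤ) ≤ 3),
                gb (by omega)] at h
              omega
            · rw [ef, fm (by omega) (by omega)] at h
              by_cases hk5 : k = (n : ℤ) - 2
              · rw [gb (by omega), gb (by omega)] at h
                omega
              · rcases hcase with hc | hc
                · have := g3_even (k := k) hn hk3 (by omega) (by omega)
                  rw [hc.1] at h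
                  omega
                · have := g3_odd (k := k) hn hk3 (by omega) (by omega)
                  rw [hc.1] at h
                  omega
        omega
      · have y5' := y5 hS'
        omega
  · rcases (show k = 1 ∨ k = 2 ∨ k = n by omega) with hk1 | hk2 | hkn
    · subst hk1
      obtain ⟨hj3, hjn⟩ := S3_left hj.2 hS
      have ef : f3 n 1 j z = (z - 4) * P + 1 - P + g3 n j 1 := fw (Or.inl rfl)
      have y2 : x2 = 0 := h2 (by omega)
      have y1 : x1 = 0 := by
        apply h1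
        rintro ⟨-, h | h⟩
        · exact S3_two hn hj3 h
        · rw [ef, fw (by omega)] at h
          have := (g3_step (k := j) (j := 1) hn).2
          omega
      have y5 : x5 = 0 := by
        apply h5
        rintro (h | h)
        · exact S3_mid hj3 hjn h
        · rw [ef, fm hj3 hjn, eu] at h
          omega
      have y6 : x6 = 0 := by
        apply h6
        rintro (h | h)
        · exact S3_mid hj3 hjn h
        · rw [ef, fm hj3 hjn, ed] at h
          omega
      omega
    · subst hk2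
      have hj3 : 3 ≤ j := by
        by_contra hcon
        exact hS (Or.inl ⟨le_refl _, by omega⟩)
      have ef : f3 n 2 j z = (z - 4) * P + 1 - P + g3 n j 2 := fw (Or.inr (Or.inl rfl))
      have y1 : x1 = 0 := by
        apply h1
        rintro ⟨-, h | h⟩
        · exact S3_mid (by omega) (by omega) h
        · rw [ef, fm (by omega) (by omega), g3_small (by omega)] at h
          have := gl (k := j) (j := 2) (by omega) (by omega)
          omega
      have y3 : x3 = 0 := by
        apply h3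
        rintro ⟨-, h | h⟩
        · exact S3_two hn (by omega) h
        · rw [ef, fw (Or.inr (Or.inl rfl))] at h
          have := g3_mono (k := j) (j := 2) hn (by omega) (by omega)
          omega
      by_cases hjn : j = n
      · have ef' : f3 n 2 j z = (z - 4) * P + 1 := by
          rw [ef, gb (by omega)]; omega
        have y5 : x5 = 0 := by
          apply h5
          rintro (h | h)
          · rw [hjn] at h
            rcases h with h | h | h <;> omega
          · rw [ef', fw (Or.inr (Or.inr hjn)), eu, g3_small (by omega)] at h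
            omega
        have y4 : x4 = 0 := by
          apply h4
          rintro ⟨-, h | h⟩
          · exact S3_two hn (by omega) h
          · rw [ef', fw (Or.inr (Or.inl rfl)), gb (by omega)] at h
            omega
        omega
      · have y5 : x5 = 0 := by
          apply h5
          rintro (h | h)
          · exact S3_mid hj3 (by omega) h
          · rw [ef, fm hj3 (by omega), eu] at h
            omega
        have y6 : x6 = 0 := by
          apply h6
          rintro (h | h)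
          · exact S3_mid hj3 (by omega) h
          · rw [ef, fm hj3 (by omega), ed] at h
            omega
        omega
    · subst hkn
      obtain ⟨hj2, hjn⟩ := S3_right hn hj.1 hj.2 hS
      have ef : f3 n n j z = (z - 4) * P + 1 - P + g3 n j n := fw (Or.inr (Or.inr rfl))
      have y1 : x1 = 0 := h1 (by omega)
      have y2 : x2 = 0 := by
        apply h2
        rintro ⟨-, h | h⟩
        · exact S3_mid (by omega) (by omega) h
        · rw [ef, fm (by omega) (by omega), gb (by omega)] at h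
          have := gl (k := j) (j := (n : ℤ)) (by omega) (by omega)
          omega
      have hS' : ¬ S3 n j n := by
        rintro (h | h | h) <;> omega
      have y5 : x5 = 0 := by
        apply h5
        rintro (h | h)
        · exact hS' h
        · by_cases hj2' : j = 2
          · rw [ef, hj2', fw (Or.inr (Or.inl rfl)), eu, gb (by omega),
              g3_small (by omega)] at h
            omega
          · rw [ef, fm (by omega) hjn, eu] at h
            omega
      have y6 : x6 = 0 := by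
        apply h6
        rintro (h | h)
        · exact hS' h
        · by_cases hj2' : j = 2
          · rw [ef, hj2', fw (Or.inr (Or.inl rfl)), ed, gb (by omega),
              g3_small (by omega)] at h
            omega
          · rw [ef, fm (by omega) hjn, ed] at h
            omega
      omega

end Pool.Agent.Lib.MP_1a3405_co.Diag
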