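import Mathlib
import Pool.Agent.Lib.MP_1a3405_co.Diag.BaseDefs

/-!
Inertness and the certificate of the base set.
-/

namespace Pool.Agent.Lib.MP_1a3405_co.Diag

open Pool.Agent.Lib.MP_1a3405_co Pool.Agent.Lib.MP_1a3405_co.Ord

variable {n : ℕ}

/-- the contributions of the six neighbours -/
structure X6 (n : ℕ) (Q : (Fin 3 → ℤ) → Prop) (k j z : ℤ) (x1 x2 x3 x4 x5 x6 : ℕ) : Prop where
  sum : cnt n Q (c3 k j z) = x1 + x2 + x3 + x4 + x5 + x6
  l1 : x1 ≤ 1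
  l2 : x2 ≤ 1
  l3 : x3 ≤ 1
  l4 : x4 ≤ 1
  l5 : x5 ≤ 1
  l6 : x6 ≤ 1
  z1 : ¬ (k + 1 ≤ n ∧ Q (c3 (k + 1) j z)) → x1 = 0
  z2 : ¬ (1 ≤ k - 1 ∧ Q (c3 (k - 1) j z)) → x2 = 0
  z3 : ¬ (j + 1 ≤ n ∧ Q (c3 k (j + 1) z)) → x3 = 0
  z4 : ¬ (1 ≤ j - 1 ∧ Q (c3 k (j - 1) z)) → x4 = 0
  z5 : ¬ (z + 1 ≤ n ∧ Q (c3 j k (z + 1))) → x5 = 0
  z6 : ¬ (1 ≤ z - 1 ∧ Q (c3 j k (z - 1))) → x6 = 0
  o1 : k + 1 ≤ n → Q (c3 (k + 1) j z) → x1 = 1
  o2 : 1 ≤ k - 1 → Q (c3 (k - 1) j z) → x2 = 1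
  o3 : j + 1 ≤ n → Q (c3 k (j + 1) z) → x3 = 1
  o4 : 1 ≤ j - 1 → Q (c3 k (j - 1) z) → x4 = 1
  o5 : z + 1 ≤ n → Q (c3 j k (z + 1)) → x5 = 1
  o6 : 1 ≤ z - 1 → Q (c3 j k (z - 1)) → x6 = 1

lemma exists_X6 (Q : (Fin 3 → ℤ) → Prop) {k j z : ℤ} (hk : 1 ≤ k ∧ k ≤ n) (hj : 1 ≤ j ∧ j ≤ n)
    (hz : 1 ≤ z ∧ z ≤ n) : ∃ x1 x2 x3 x4 x5 x6, X6 n Q k j z x1 x2 x3 x4 x5 x6 := by
  classical
  have hle : ∀ (p : Prop) [Decidable p], (if p then 1 else 0 : ℕ) ≤ 1 := by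
    intro p _; split_ifs <;> omega
  exact ⟨_, _, _, _, _, _, cnt_c3 Q hk hj hz, hle _, hle _, hle _, hle _, hle _, hle _,
    fun h => if_neg h, fun h => if_neg h, fun h => if_neg h, fun h => if_neg h,
    fun h => if_neg h, fun h => if_neg h, fun h h' => if_pos ⟨h, h'⟩,
    fun h h' => if_pos ⟨h, h'⟩, fun h h' => if_pos ⟨h, h'⟩, fun h h' => if_pos ⟨h, h'⟩,
    fun h h' => if_pos ⟨h, h'⟩, fun h h' => if_pos ⟨h, h'⟩⟩

lemma T3_reg {k j z : ℤ} (h1 : 3 ≤ z) (h2 : z ≤ (n : ℤ) - 2) : T3 n k j z ↔ S3 n k j := by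
  constructor
  · rintro (h | h | h | h)
    · omega
    · omega
    · omega
    · exact h.2.2
  · intro h
    exact Or.inr (Or.inr (Or.inr ⟨h1, h2, h⟩))

lemma T3_end (hn : 10 ≤ n) {k j z : ℤ} (h1 : z = 2 ∨ z = (n : ℤ) - 1) :
    T3 n k j z ↔ k = n := by
  constructor
  · rintro (h | h | h | h)
    · omega
    · omega
    · exact h.2
    · omega
  · intro h
    exact Or.inr (Or.inr (Or.inl ⟨h1, h⟩))

/-- counting next to the special layers -/
lemma edge_le (hn : 10 ≤ n) {k j : ℤ} (hk : 1 ≤ k ∧ k ≤ n) (hj : 1 ≤ j ∧ j ≤ n)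
    (hS : ¬ S3 n k j) {x1 x2 x3 x4 x5 x6 : ℕ} (l1 : x1 ≤ 1) (l2 : x2 ≤ 1) (l3 : x3 ≤ 1)
    (l4 : x4 ≤ 1) (l5 : x5 ≤ 1) (l6 : x6 ≤ 1)
    (h1 : ¬ (k + 1 ≤ n ∧ S3 n (k + 1) j) → x1 = 0)
    (h2 : ¬ (1 ≤ k - 1 ∧ S3 n (k - 1) j) → x2 = 0)
    (h3 : ¬ (j + 1 ≤ n ∧ S3 n k (j + 1)) → x3 = 0)
    (h4 : ¬ (1 ≤ j - 1 ∧ S3 n k (j - 1)) → x4 = 0)
    (h5 : ¬ S3 n j k → x5 = 0)
    (h6 : j ≠ n → x6 = 0) :
    x1 + x2 + x3 + x4 + x5 + x6 ≤ 2 := by
  by_cases hA : 3 ≤ k ∧ k ≤ (n : ℤ) - 1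
  · obtain ⟨hk3, hkn⟩ := hA
    have y3 : x3 = 0 := h3 fun h => S3_mid hk3 hkn h.2
    have y4 : x4 = 0 := h4 fun h => S3_mid hk3 hkn h.2
    by_cases hk1 : k = (n : ℤ) - 1
    · have y5 : x5 = 0 := by
        apply h5
        rw [hk1]
        rintro (h | h | h) <;> omega
      have y2 : x2 = 0 := h2 fun h => S3_mid (by omega) (by omega) h.2
      omega
    · have y1 : x1 = 0 := h1 fun h => S3_mid (by omega) (by omega) h.2
      by_cases hjn : j = n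
      · have y2 : x2 = 0 := by
          apply h2
          rintro ⟨-, h⟩
          by_cases hk4 : k = 3
          · rw [hk4] at h
            exact S3_two hn (by omega) h
          · exact S3_mid (by omega) (by omega) h
        omega
      · have y6 := h6 hjn
        omega
  · rcases (show k = 1 ∨ k = 2 ∨ k = n by omega) with hk1 | hk2 | hkn
    · subst hk1
      obtain ⟨hj3, hjn⟩ := S3_left hj.2 hS
      have y6 := h6 (by omega)
      have y5 : x5 = 0 := h5 fun h => S3_mid hj3 hjn h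
      have y2 : x2 = 0 := h2 (by omega)
      have y1 : x1 = 0 := h1 fun h => S3_two hn hj3 h.2
      omega
    · subst hk2
      have hj3 : 3 ≤ j := by
        by_contra hcon
        exact hS (Or.inl ⟨le_refl _, by omega⟩)
      have y1 : x1 = 0 := h1 fun h => S3_mid (by omega) (by omega) h.2
      have y3 : x3 = 0 := h3 fun h => S3_two hn (by omega) h.2
      by_cases hjn : j = n
      · have y4 : x4 = 0 := h4 fun h => S3_two hn (by omega) h.2
        have y5 : x5 = 0 := by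
          apply h5
          rw [hjn]
          rintro (h | h | h) <;> omega
        omega
      · have y6 := h6 hjn
        have y5 : x5 = 0 := h5 fun h => S3_mid hj3 (by omega) h
        omega
    · subst hkn
      obtain ⟨hj2, hjn⟩ := S3_right hn hj.1 hj.2 hS
      have y6 := h6 (by omega)
      have y5 : x5 = 0 := by
        apply h5
        rintro (h | h | h) <;> omega
      have y2 : x2 = 0 := h2 fun h => S3_mid (by omega) (by omega) h.2
      have y1 : x1 = 0 := h1 (by omega)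
      omega

/-- at most two of the neighbours are initially infected -/
theorem inert3 (hn : 10 ≤ n) (p : Fin 3 → ℤ) (hp : InBox n p) (hT : ¬ TT n p) :
    cnt n (TT n) p ≤ 2 := by
  obtain ⟨k, j, z, rfl⟩ := exists_c3 p
  rw [inBox_c3] at hp
  obtain ⟨hk, hj, hz⟩ := hp
  rw [TT_c3] at hT
  obtain ⟨x1, x2, x3, x4, x5, x6, X⟩ := exists_X6 (TT n) hk hj hz
  have q1 := X.z1
  have q2 := X.z2
  have q3 := X.z3
  have q4 := X.z4
  have q5 := X.z5
  have q6 := X.z6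
  rw [TT_c3] at q1 q2 q3 q4 q5 q6
  have hl := X.l1
  have hl2 := X.l2
  have hl3 := X.l3
  have hl4 := X.l4
  have hl5 := X.l5
  have hl6 := X.l6
  rw [X.sum]
  have hz1 : z ≠ 1 := fun h => hT (Or.inl h)
  have hzn : z ≠ n := fun h => hT (Or.inr (Or.inl h))
  by_cases hend : z = 2 ∨ z = (n : ℤ) - 1
  · rw [T3_end hn hend] at hT
    rw [T3_end hn hend] at q1 q2 q3 q4
    have y2 : x2 = 0 := q2 (by omega)
    have y3 : x3 = 0 := q3 (by omega)
    have y4 : x4 = 0 := q4 (by omega)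
    by_cases hk1 : k + 1 = n
    · rcases hend with h | h
      · have y5 : x5 = 0 := by
          apply q5
          rw [T3_reg (by omega) (by omega)]
          rintro ⟨-, h | h | h⟩ <;> omega
        omega
      · have y6 : x6 = 0 := by
          apply q6
          rw [T3_reg (by omega) (by omega)]
          rintro ⟨-, h | h | h⟩ <;> omega
        omega
    · have y1 : x1 = 0 := q1 (by omega)
      omega
  · rw [T3_reg (by omega) (by omega)] at hT q1 q2 q3 q4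
    by_cases h3 : z = 3
    · rw [T3_reg (by omega) (by omega)] at q5
      rw [T3_end hn (by omega)] at q6
      exact edge_le hn hk hj hT hl hl2 hl3 hl4 hl5 hl6 q1 q2 q3 q4
        (fun h => q5 fun h' => h h'.2) (fun h => q6 fun h' => h h'.2)
    · by_cases h4 : z = (n : ℤ) - 2
      · rw [T3_reg (by omega) (by omega)] at q6
        rw [T3_end hn (by omega)] at q5
        have := edge_le hn hk hj hT hl hl2 hl3 hl4 hl6 hl5 q1 q2 q3 q4
          (fun h => q6 fun h' => h h'.2) (fun h => q5 fun h' => h h'.2)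
        omega
      · rw [T3_reg (by omega) (by omega)] at q5 q6
        exact reg_le (z := z) hn hk hj hT hl hl2 hl3 hl4 hl5 hl6
          (fun h => q1 fun h' => h ⟨h'.1, Or.inl h'.2⟩)
          (fun h => q2 fun h' => h ⟨h'.1, Or.inl h'.2⟩)
          (fun h => q3 fun h' => h ⟨h'.1, Or.inl h'.2⟩)
          (fun h => q4 fun h' => h ⟨h'.1, Or.inl h'.2⟩)
          (fun h => q5 fun h' => h (Or.inl h'.2))
          (fun h => q6 fun h' => h (Or.inl h'.2))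

lemma one_le_L3 (hn : 10 ≤ n) : 1 ≤ L3 n := by
  have h1 : 0 ≤ ((n : ℤ) - 7) * n := mul_nonneg (by omega) (by omega)
  have h2 : 0 ≤ ((n : ℤ) - 8) * (((n : ℤ) - 7) * n) := mul_nonneg (by omega) h1
  rw [L3]
  omega

lemma f3_bounds (hn : 10 ≤ n) {k j z : ℤ} (hk : 1 ≤ k ∧ k ≤ n) (hj : 1 ≤ j ∧ j ≤ n) :
    (z - 4) * (((n : ℤ) - 7) * n) + 1 - ((n : ℤ) - 7) * n ≤ f3 n k j z ∧
      f3 n k j z ≤ (z - 4) * (((n : ℤ) - 7) * n) + 1 + ((n : ℤ) - 7) * n := by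
  have h1 : 0 ≤ ((n : ℤ) - 7) * n := mul_nonneg (by omega) (by omega)
  by_cases h : k = 1 ∨ k = 2 ∨ k = n
  · rw [f3_wall h]
    have h2 := g3_nonneg (k := j) hn hk.1 hk.2
    have h3 := g3_le (k := j) hn hk.1 hk.2
    constructor <;> omega
  · rw [f3_mid (by omega) (by omega)]
    have h2 := g3_nonneg (k := k) hn hj.1 hj.2
    have h3 := g3_le (k := k) hn hj.1 hj.2
    constructor <;> omega

lemma τ3_early (hn : 10 ≤ n) {k j z : ℤ} (hk : 1 ≤ k ∧ k ≤ n) (hj : 1 ≤ j ∧ j ≤ n)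
    (hz : z ≤ 3) : τ3 n (c3 k j z) = 1 := by
  have h1 : 0 ≤ ((n : ℤ) - 7) * n := mul_nonneg (by omega) (by omega)
  have h2 := (f3_bounds (z := z) hn hk hj).2
  have h3 : 0 ≤ (3 - z) * (((n : ℤ) - 7) * n) := mul_nonneg (by omega) h1
  have h4 : (z - 4) * (((n : ℤ) - 7) * n) = - ((3 - z) * (((n : ℤ) - 7) * n)) -
      ((n : ℤ) - 7) * n := by ring
  rw [τ3_c3, max_eq_left]
  exact (min_le_right _ _).trans (by omega)

lemma τ3_late (hn : 10 ≤ n) {k j z : ℤ} (hk : 1 ≤ k ∧ k ≤ n) (hj : 1 ≤ j ∧ j ≤ n)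
    (hz : (n : ℤ) - 3 ≤ z) : τ3 n (c3 k j z) = L3 n := by
  have h1 : 0 ≤ ((n : ℤ) - 7) * n := mul_nonneg (by omega) (by omega)
  have h2 := (f3_bounds (z := z) hn hk hj).1
  have h3 : 0 ≤ (z - ((n : ℤ) - 3)) * (((n : ℤ) - 7) * n) := mul_nonneg (by omega) h1
  have h4 : (z - 4) * (((n : ℤ) - 7) * n) = (z - ((n : ℤ) - 3)) * (((n : ℤ) - 7) * n) +
      ((n : ℤ) - 8) * (((n : ℤ) - 7) * n) + ((n : ℤ) - 7) * n := by ring
  have h5 := one_le_L3 hn
  rw [τ3_c3, min_eq_left, max_eq_right h5]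
  rw [L3]
  omega

lemma nb_zero_bound (p : Fin 3 → ℤ) (δ : Fin 3 × Bool) :
    p 0 - 1 ≤ nb p δ 0 ∧ nb p δ 0 ≤ p 0 + 1 := by
  obtain ⟨i, b⟩ := δ
  by_cases hi : i = 0
  · subst hi
    have e : nb p (0, b) 0 = p 0 + (if b then 1 else -1) := by simp [nb]
    rw [e]
    cases b
    · simp only [Bool.false_eq_true, if_false]; omega
    · simp only [if_true]; omega
  · rw [nb, Function.update_of_ne (fun h => hi h.symm)]
    omega

/-- the lower trigger -/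
def sA (n : ℕ) : Fin 3 → ℤ := c3 ((n : ℤ) - 2) 2 2

/-- the upper trigger -/
def sB (n : ℕ) : Fin 3 → ℤ := c3 ((n : ℤ) - 2) 2 ((n : ℤ) - 1)

theorem cert3 (hn : 10 ≤ n) (p : Fin 3 → ℤ) (hp : InBox n p) (hT : ¬ TT n p)
    (h2 : 2 ≤ τ3 n p) :
    cnt n (fun q => TT n q ∨ q = sA n ∨ τ3 n q + 2 ≤ τ3 n p) p ≤ 2 := by
  by_cases hlate : (n : ℤ) - 2 ≤ p 0
  · refine (cnt_mono fun δ hb hq => ?_).trans (inert3 hn p hp hT)
    have hz := nb_zero_bound p δ
    generalize nb p δ = q at hb hq hz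
    obtain ⟨k, j, z, rfl⟩ := exists_c3 q
    obtain ⟨k', j', z', rfl⟩ := exists_c3 p
    rw [inBox_c3] at hb hp
    rw [c3_zero] at hlate
    rw [c3_zero, c3_zero] at hz
    rcases hq with hq | hq | hq
    · exact hq
    · rw [sA, c3_inj] at hq
      omega
    · rw [τ3_late hn hb.1 hb.2.1 (by omega), τ3_late hn hp.1 hp.2.1 (by omega)] at hq
      omega
  · obtain ⟨k, j, z, rfl⟩ := exists_c3 p
    rw [inBox_c3] at hp
    obtain ⟨hk, hj, hz⟩ := hp
    rw [c3_zero] at hlate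
    have hz4 : 4 ≤ z := by
      by_contra hcon
      rw [τ3_early hn hk hj (by omega)] at h2
      omega
    rw [TT_c3, T3_reg (by omega) (by omega)] at hT
    obtain ⟨x1, x2, x3, x4, x5, x6, X⟩ := exists_X6
      (fun q => TT n q ∨ q = sA n ∨ τ3 n q + 2 ≤ τ3 n (c3 k j z)) hk hj hz
    have key : ∀ k' j' z', z - 1 ≤ z' → z' ≤ z + 1 →
        (TT n (c3 k' j' z') ∨ c3 k' j' z' = sA n ∨ τ3 n (c3 k' j' z') + 2 ≤ τ3 n (c3 k j z)) →
        S3 n k' j' ∨ f3 n k' j' z' + 2 ≤ f3 n k j z := by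
      intro k' j' z' h3 h4 hq
      rcases hq with hq | hq | hq
      · rw [TT_c3, T3_reg (by omega) (by omega)] at hq
        exact Or.inl hq
      · rw [sA, c3_inj] at hq
        omega
      · right
        rw [τ3_c3] at hq h2
        rw [τ3_c3] at hq
        have a1 := le_max_left (1 : ℤ) (min (L3 n) (f3 n k' j' z'))
        have a2 := le_max_right (1 : ℤ) (min (L3 n) (f3 n k' j' z'))
        have a3 : min (L3 n) (f3 n k' j' z') = L3 n ∨
          min (L3 n) (f3 n k' j' z') = f3 n k' j' z' := min_choice _ _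
        have a4 := min_le_left (L3 n) (f3 n k j z)
        have a5 := min_le_right (L3 n) (f3 n k j z)
        have a6 : max 1 (min (L3 n) (f3 n k j z)) = 1 ∨
          max 1 (min (L3 n) (f3 n k j z)) = min (L3 n) (f3 n k j z) := max_choice _ _
        have a7 := one_le_L3 hn
        omega
    rw [X.sum]
    exact reg_le (z := z) hn hk hj hT X.l1 X.l2 X.l3 X.l4 X.l5 X.l6
      (fun h => X.z1 fun h' => h ⟨h'.1, key _ _ _ (by omega) (by omega) h'.2⟩)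
      (fun h => X.z2 fun h' => h ⟨h'.1, key _ _ _ (by omega) (by omega) h'.2⟩)
      (fun h => X.z3 fun h' => h ⟨h'.1, key _ _ _ (by omega) (by omega) h'.2⟩)
      (fun h => X.z4 fun h' => h ⟨h'.1, key _ _ _ (by omega) (by omega) h'.2⟩)
      (fun h => X.z5 fun h' => h (key _ _ _ (by omega) (by omega) h'.2))
      (fun h => X.z6 fun h' => h (key _ _ _ (by omega) (by omega) h'.2))

end Pool.Agent.Lib.MP_1a3405_co.Diag
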