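import Mathlib
import Pool.Agent.Lib.MP_1a3405_co.Diag.BaseHalf

/-!
Percolation of the base set.
-/

namespace Pool.Agent.Lib.MP_1a3405_co.Diag

open Pool.Agent.Lib.MP_1a3405_co Pool.Agent.Lib.MP_1a3405_co.Ord

variable {n : ℕ}

/-- every point of the walls is initially infected or lies between two such points -/
lemma S3_wall1 (hn : 10 ≤ n) {j : ℤ} (hj : 1 ≤ j ∧ j ≤ n) :
    S3 n 1 j ∨ (2 ≤ j ∧ j ≤ (n : ℤ) - 1 ∧ S3 n 1 (j - 1) ∧ S3 n 1 (j + 1)) := by
  by_cases h1 : S3 n 1 j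
  · exact Or.inl h1
  · obtain ⟨h3, h4⟩ := S3_left hj.2 h1
    right
    have h5 : j ≠ (n : ℤ) - 2 := fun h => h1 (Or.inr (Or.inl ⟨rfl, Or.inr (Or.inl h), by omega⟩))
    have h6 : j % 2 = 1 ∨ j = (n : ℤ) - 1 := by
      by_contra hcon
      push Not at hcon
      exact h1 (Or.inr (Or.inl ⟨rfl, Or.inl (by omega), by omega⟩))
    refine ⟨by omega, by omega, ?_, ?_⟩
    · by_cases h7 : j = (n : ℤ) - 1
      · exact Or.inr (Or.inl ⟨rfl, Or.inr (Or.inl (by omega)), by omega⟩)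
      · exact Or.inr (Or.inl ⟨rfl, Or.inl (by omega), by omega⟩)
    · by_cases h7 : j = (n : ℤ) - 1
      · exact Or.inr (Or.inl ⟨rfl, Or.inr (Or.inr (by omega)), by omega⟩)
      · exact Or.inr (Or.inl ⟨rfl, Or.inl (by omega), by omega⟩)

lemma S3_walln (hn : 10 ≤ n) {j : ℤ} (hj : 1 ≤ j ∧ j ≤ n) :
    S3 n n j ∨ (2 ≤ j ∧ j ≤ (n : ℤ) - 1 ∧ S3 n n (j - 1) ∧ S3 n n (j + 1)) := by
  by_cases h1 : S3 n n j
  · exact Or.inl h1
  · obtain ⟨h3, h4⟩ := S3_right hn hj.1 hj.2 h1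
    right
    have h5 : j ≠ (n : ℤ) - 2 :=
      fun h => h1 (Or.inr (Or.inr ⟨rfl, Or.inr (Or.inl h), by omega⟩))
    have h6 : j % 2 = 0 ∨ j = (n : ℤ) - 1 := by
      by_contra hcon
      push Not at hcon
      exact h1 (Or.inr (Or.inr ⟨rfl, Or.inl (by omega), by omega⟩))
    refine ⟨by omega, by omega, ?_, ?_⟩
    · by_cases h7 : j = (n : ℤ) - 1
      · exact Or.inr (Or.inr ⟨rfl, Or.inr (Or.inl (by omega)), by omega⟩)
      · exact Or.inr (Or.inr ⟨rfl, Or.inl (by omega), by omega⟩)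
    · by_cases h7 : j = (n : ℤ) - 1
      · exact Or.inr (Or.inr ⟨rfl, Or.inr (Or.inr (by omega)), by omega⟩)
      · exact Or.inr (Or.inr ⟨rfl, Or.inl (by omega), by omega⟩)

section perc
variable {U : (Fin 3 → ℤ) → Prop} {C : (Fin 3 → ℤ) → Prop} {θ : ℕ}

lemma rule (hU : ∀ p, U p → InBox n p ∧ ¬ C p ∧ cnt n (fun q => ¬ U q) p < θ) {k j z : ℤ}
    (h : U (c3 k j z)) :
    ((1 ≤ k ∧ k ≤ n) ∧ (1 ≤ j ∧ j ≤ n) ∧ (1 ≤ z ∧ z ≤ n)) ∧ ¬ C (c3 k j z) ∧
    ∃ x1 x2 x3 x4 x5 x6, X6 n (fun q => ¬ U q) k j z x1 x2 x3 x4 x5 x6 ∧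
      x1 + x2 + x3 + x4 + x5 + x6 < θ := by
  obtain ⟨h1, h2, h3⟩ := hU _ h
  rw [inBox_c3] at h1
  obtain ⟨x1, x2, x3, x4, x5, x6, X⟩ := exists_X6 (fun q => ¬ U q) h1.1 h1.2.1 h1.2.2
  refine ⟨h1, h2, x1, x2, x3, x4, x5, x6, X, ?_⟩
  rw [← X.sum]
  exact h3

/-- a line which is supported from below and from the side, with a start at its lower end -/
lemma line_up (hU : ∀ p, U p → InBox n p ∧ ¬ C p ∧ cnt n (fun q => ¬ U q) p < 3) {k z : ℤ}
    (hz : 2 ≤ z) (hdn : ∀ j, ¬ U (c3 j k (z - 1)))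
    (hside : (k + 1 ≤ n ∧ ∀ j, ¬ U (c3 (k + 1) j z)) ∨
      (1 ≤ k - 1 ∧ ∀ j, ¬ U (c3 (k - 1) j z))) {j₀ : ℤ} (hj₀ : 1 ≤ j₀)
    (hstart : ¬ U (c3 k j₀ z)) : ∀ j, j₀ ≤ j → ¬ U (c3 k j z) := by
  have key : ∀ m : ℕ, ¬ U (c3 k (j₀ + m) z) := by
    intro m
    induction m with
    | zero => simpa using hstart
    | succ m ih =>
      intro h
      obtain ⟨hb, -, x1, x2, x3, x4, x5, x6, X, hX⟩ := rule hU h
      have y6 := X.o6 (by omega) (hdn _)
      have y4 := X.o4 (by push_cast; omega) (by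
        rw [show j₀ + ((m + 1 : ℕ) : ℤ) - 1 = j₀ + m by push_cast; ring]; exact ih)
      rcases hside with hs | hs
      · have y1 := X.o1 hs.1 (hs.2 _)
        omega
      · have y2 := X.o2 hs.1 (hs.2 _)
        omega
  intro j hj
  obtain ⟨m, hm⟩ : ∃ m : ℕ, j = j₀ + m := ⟨(j - j₀).toNat, by omega⟩
  rw [hm]
  exact key m

/-- a line which is supported from below and from the side, with a start at its upper end -/
lemma line_down (hU : ∀ p, U p → InBox n p ∧ ¬ C p ∧ cnt n (fun q => ¬ U q) p < 3) {k z : ℤ}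
    (hz : 2 ≤ z) (hdn : ∀ j, ¬ U (c3 j k (z - 1)))
    (hside : (k + 1 ≤ n ∧ ∀ j, ¬ U (c3 (k + 1) j z)) ∨
      (1 ≤ k - 1 ∧ ∀ j, ¬ U (c3 (k - 1) j z))) {j₀ : ℤ} (hj₀ : j₀ ≤ n)
    (hstart : ¬ U (c3 k j₀ z)) : ∀ j, j ≤ j₀ → ¬ U (c3 k j z) := by
  have key : ∀ m : ℕ, ¬ U (c3 k (j₀ - m) z) := by
    intro m
    induction m with
    | zero => simpa using hstart
    | succ m ih =>
      intro h
      obtain ⟨hb, -, x1, x2, x3, x4, x5, x6, X, hX⟩ := rule hU h
      have y6 := X.o6 (by omega) (hdn _)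
      have y3 := X.o3 (by push_cast; omega) (by
        rw [show j₀ - ((m + 1 : ℕ) : ℤ) + 1 = j₀ - m by push_cast; ring]; exact ih)
      rcases hside with hs | hs
      · have y1 := X.o1 hs.1 (hs.2 _)
        omega
      · have y2 := X.o2 hs.1 (hs.2 _)
        omega
  intro j hj
  obtain ⟨m, hm⟩ : ∃ m : ℕ, j = j₀ - m := ⟨(j₀ - j).toNat, by omega⟩
  rw [hm]
  exact key m

/-- a line with a start above one of its ends -/
lemma line_all (hU : ∀ p, U p → InBox n p ∧ ¬ C p ∧ cnt n (fun q => ¬ U q) p < 3) {k z : ℤ}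
    (hz : 2 ≤ z) (hzn : z + 1 ≤ n) (hdn : ∀ j, ¬ U (c3 j k (z - 1)))
    (hside : (k + 1 ≤ n ∧ ∀ j, ¬ U (c3 (k + 1) j z)) ∨
      (1 ≤ k - 1 ∧ ∀ j, ¬ U (c3 (k - 1) j z)))
    (hup : ¬ U (c3 1 k (z + 1)) ∨ ¬ U (c3 n k (z + 1))) : ∀ j, ¬ U (c3 k j z) := by
  rcases hup with hup | hup
  · have hs : ¬ U (c3 k 1 z) := by
      intro h
      obtain ⟨hb, -, x1, x2, x3, x4, x5, x6, X, hX⟩ := rule hU h
      have y6 := X.o6 (by omega) (hdn _)
      have y5 := X.o5 hzn hup
      rcases hside with hs | hs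
      · have y1 := X.o1 hs.1 (hs.2 _)
        omega
      · have y2 := X.o2 hs.1 (hs.2 _)
        omega
    intro j
    by_cases hj : 1 ≤ j
    · exact line_up hU hz hdn hside (le_refl _) hs j hj
    · intro h
      have := (rule hU h).1
      omega
  · have hs : ¬ U (c3 k n z) := by
      intro h
      obtain ⟨hb, -, x1, x2, x3, x4, x5, x6, X, hX⟩ := rule hU h
      have y6 := X.o6 (by omega) (hdn _)
      have y5 := X.o5 hzn hup
      rcases hside with hs | hs
      · have y1 := X.o1 hs.1 (hs.2 _)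
        omega
      · have y2 := X.o2 hs.1 (hs.2 _)
        omega
    intro j
    by_cases hj : j ≤ n
    · exact line_down hU hz hdn hside (le_refl _) hs j hj
    · intro h
      have := (rule hU h).1
      omega

/-- a regular layer above a full layer -/
lemma layer_reg (hn : 10 ≤ n) (hC : ∀ p, TT n p → C p)
    (hU : ∀ p, U p → InBox n p ∧ ¬ C p ∧ cnt n (fun q => ¬ U q) p < 3) {z : ℤ}
    (hz : 3 ≤ z) (hzn : z ≤ (n : ℤ) - 2) (hdn : ∀ k j, ¬ U (c3 k j (z - 1))) :
    ∀ k j, ¬ U (c3 k j z) := by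
  have hS : ∀ k j, S3 n k j → ¬ U (c3 k j z) := by
    intro k j h hu
    exact (rule hU hu).2.1 (hC _ (by rw [TT_c3, T3_reg hz hzn]; exact h))
  have w1 : ∀ j, ¬ U (c3 1 j z) := by
    intro j hu
    obtain ⟨hb, -, x1, x2, x3, x4, x5, x6, X, hX⟩ := rule hU hu
    rcases S3_wall1 hn hb.2.1 with h | ⟨h1, h2, h3, h4⟩
    · exact hS _ _ h hu
    · have y3 := X.o3 (by omega) (hS _ _ h4)
      have y4 := X.o4 (by omega) (hS _ _ h3)
      have y6 := X.o6 (by omega) (hdn _ _)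
      omega
  have wn : ∀ j, ¬ U (c3 n j z) := by
    intro j hu
    obtain ⟨hb, -, x1, x2, x3, x4, x5, x6, X, hX⟩ := rule hU hu
    rcases S3_walln hn hb.2.1 with h | ⟨h1, h2, h3, h4⟩
    · exact hS _ _ h hu
    · have y3 := X.o3 (by omega) (hS _ _ h4)
      have y4 := X.o4 (by omega) (hS _ _ h3)
      have y6 := X.o6 (by omega) (hdn _ _)
      omega
  have w2 : ∀ j, ¬ U (c3 2 j z) := by
    intro j
    by_cases hj : j ≤ 2
    · exact hS _ _ (Or.inl ⟨le_refl _, hj⟩)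
    · exact line_up hU (by omega) (fun j => hdn _ _)
        (Or.inr ⟨by omega, by simpa using w1⟩) (j₀ := 2) (by omega)
        (hS _ _ (Or.inl ⟨le_refl _, le_refl _⟩)) j (by omega)
  -- triggers
  have htr : ∀ k, 1 ≤ k → k ≤ (n : ℤ) - 2 →
      ¬ U (c3 1 k (z + 1)) ∨ ¬ U (c3 n k (z + 1)) := by
    intro k hk1 hk2
    by_cases hz' : z = (n : ℤ) - 2
    · right
      intro hu
      apply (rule hU hu).2.1
      apply hC
      rw [TT_c3, T3_end hn (by omega)]
    · by_cases hk : k % 2 = 0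
      · left
        intro hu
        apply (rule hU hu).2.1
        apply hC
        rw [TT_c3, T3_reg (by omega) (by omega)]
        exact Or.inr (Or.inl ⟨rfl, Or.inl hk, by omega⟩)
      · right
        intro hu
        apply (rule hU hu).2.1
        apply hC
        rw [TT_c3, T3_reg (by omega) (by omega)]
        exact Or.inr (Or.inr ⟨rfl, Or.inl (by omega), by omega⟩)
  have key : ∀ m : ℕ, (m : ℤ) + 2 ≤ (n : ℤ) - 2 → ∀ j, ¬ U (c3 ((m : ℤ) + 2) j z) := by
    intro m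
    induction m with
    | zero => intro _; simpa using w2
    | succ m ih =>
      intro hm
      have ih' := ih (by push_cast at hm; omega)
      apply line_all hU (by omega) (by omega) (fun j => hdn _ _) (Or.inr ⟨by push_cast; omega, ?_⟩)
        (htr _ (by push_cast; omega) hm)
      intro j
      rw [show ((m + 1 : ℕ) : ℤ) + 2 - 1 = (m : ℤ) + 2 by push_cast; ring]
      exact ih' j
  have w3 : ∀ j, ¬ U (c3 ((n : ℤ) - 1) j z) := by
    intro j hu
    obtain ⟨hb, -, x1, x2, x3, x4, x5, x6, X, hX⟩ := rule hU hu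
    have y1 := X.o1 (by omega) (by rw [sub_add_cancel]; exact wn _)
    have y2 := X.o2 (by omega) (by
      have := key (n - 4) (by omega) j
      rwa [show ((n - 4 : ℕ) : ℤ) + 2 = (n : ℤ) - 1 - 1 by omega] at this)
    have y6 := X.o6 (by omega) (hdn _ _)
    omega
  intro k j hu
  have hb := (rule hU hu).1
  rcases (show k = 1 ∨ k = n ∨ k = (n : ℤ) - 1 ∨ (2 ≤ k ∧ k ≤ (n : ℤ) - 2) by omega) with
    h | h | h | h
  · exact w1 j (h ▸ hu)
  · exact wn j (h ▸ hu)
  · exact w3 j (h ▸ hu)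
  · have := key (k - 2).toNat (by omega) j
    rw [show (((k - 2).toNat : ℕ) : ℤ) + 2 = k by omega] at this
    exact this hu

/-- the base set with the lower trigger percolates -/
theorem perc3 (hn : 10 ≤ n) : Perc n 3 (fun p => TT n p ∨ p = sA n) := by
  intro U hU'
  have hU : ∀ p, U p → InBox n p ∧ ¬ (TT n p ∨ p = sA n) ∧ cnt n (fun q => ¬ U q) p < 3 := hU'
  have hC : ∀ p, TT n p → (TT n p ∨ p = sA n) := fun p h => Or.inl h
  have l1 : ∀ k j, ¬ U (c3 k j 1) := by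
    intro k j hu
    exact (hU _ hu).2.1 (Or.inl (by rw [TT_c3]; exact Or.inl rfl))
  have ln : ∀ k j, ¬ U (c3 k j n) := by
    intro k j hu
    exact (hU _ hu).2.1 (Or.inl (by rw [TT_c3]; exact Or.inr (Or.inl rfl)))
  -- layer two
  have v0 : ∀ j, ¬ U (c3 n j 2) := by
    intro j hu
    exact (hU _ hu).2.1 (Or.inl (by rw [TT_c3, T3_end hn (Or.inl rfl)]))
  have v1 : ¬ U (c3 ((n : ℤ) - 1) 2 2) := by
    intro hu
    obtain ⟨hb, -, x1, x2, x3, x4, x5, x6, X, hX⟩ := rule hU hu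
    have y1 := X.o1 (by omega) (by rw [sub_add_cancel]; exact v0 _)
    have y2 := X.o2 (by omega) (fun hu' => (hU _ hu').2.1 (Or.inr (by
      rw [sA]; congr 1; ring)))
    have y6 := X.o6 (by omega) (l1 _ _)
    omega
  have v2 : ∀ j, ¬ U (c3 ((n : ℤ) - 1) j 2) := by
    intro j
    have hs : ((n : ℤ) - 1 + 1 ≤ n ∧ ∀ j, ¬ U (c3 ((n : ℤ) - 1 + 1) j 2)) ∨
      (1 ≤ (n : ℤ) - 1 - 1 ∧ ∀ j, ¬ U (c3 ((n : ℤ) - 1 - 1) j 2)) :=
      Or.inl ⟨by omega, fun j => by rw [sub_add_cancel]; exact v0 _⟩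
    rcases le_total 2 j with hj | hj
    · exact line_up hU (le_refl _) (fun j => l1 _ _) hs (by omega) v1 j hj
    · exact line_down hU (le_refl _) (fun j => l1 _ _) hs (by omega) v1 j hj
  have htr : ∀ k, 1 ≤ k → k ≤ (n : ℤ) - 2 → ¬ U (c3 1 k (2 + 1)) ∨ ¬ U (c3 n k (2 + 1)) := by
    intro k hk1 hk2
    by_cases hk : k % 2 = 0
    · left
      intro hu
      apply (rule hU hu).2.1
      left
      rw [TT_c3, T3_reg (by omega) (by omega)]
      exact Or.inr (Or.inl ⟨rfl, Or.inl hk, by omega⟩)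
    · right
      intro hu
      apply (rule hU hu).2.1
      left
      rw [TT_c3, T3_reg (by omega) (by omega)]
      exact Or.inr (Or.inr ⟨rfl, Or.inl (by omega), by omega⟩)
  have v3 : ∀ m : ℕ, 1 ≤ (n : ℤ) - 1 - m → ∀ j, ¬ U (c3 ((n : ℤ) - 1 - m) j 2) := by
    intro m
    induction m with
    | zero => intro _; simpa using v2
    | succ m ih =>
      intro hm
      have ih' := ih (by push_cast at hm; omega)
      apply line_all hU (by omega) (by omega) (fun j => l1 _ _) (Or.inl ⟨by push_cast; omega, ?_⟩)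
        (htr _ hm (by push_cast; omega))
      intro j
      rw [show (n : ℤ) - 1 - ((m + 1 : ℕ) : ℤ) + 1 = (n : ℤ) - 1 - m by push_cast; ring]
      exact ih' j
  have l2 : ∀ k j, ¬ U (c3 k j 2) := by
    intro k j hu
    have hb := (rule hU hu).1
    by_cases hk : k = n
    · exact v0 j (hk ▸ hu)
    · have := v3 ((n : ℤ) - 1 - k).toNat (by omega) j
      rw [show (n : ℤ) - 1 - (((n : ℤ) - 1 - k).toNat : ℤ) = k by omega] at this
      exact this hu
  have lz : ∀ m : ℕ, (m : ℤ) + 2 ≤ (n : ℤ) - 2 → ∀ k j, ¬ U (c3 k j ((m : ℤ) + 2)) := by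
    intro m
    induction m with
    | zero => intro _; simpa using l2
    | succ m ih =>
      intro hm
      apply layer_reg hn hC hU (by push_cast; omega) hm
      intro k j
      rw [show ((m + 1 : ℕ) : ℤ) + 2 - 1 = (m : ℤ) + 2 by push_cast; ring]
      exact ih (by push_cast at hm; omega) k j
  have ln2 : ∀ k j, ¬ U (c3 k j ((n : ℤ) - 2)) := by
    intro k j
    have := lz (n - 4) (by omega) k j
    rwa [show ((n - 4 : ℕ) : ℤ) + 2 = (n : ℤ) - 2 by omega] at this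
  have ln1' : ∀ m : ℕ, ∀ j, ¬ U (c3 ((n : ℤ) - m) j ((n : ℤ) - 1)) := by
    intro m
    induction m with
    | zero =>
      intro j hu
      apply (rule hU hu).2.1
      left
      rw [TT_c3, T3_end hn (Or.inr rfl)]
      simp
    | succ m ih =>
      intro j hu
      obtain ⟨hb, -, x1, x2, x3, x4, x5, x6, X, hX⟩ := rule hU hu
      have y1 := X.o1 (by push_cast; omega) (by
        rw [show (n : ℤ) - ((m + 1 : ℕ) : ℤ) + 1 = (n : ℤ) - m by push_cast; ring]; exact ih j)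
      have y5 := X.o5 (by omega) (by rw [sub_add_cancel]; exact ln _ _)
      have y6 := X.o6 (by omega) (by
        rw [show (n : ℤ) - 1 - 1 = (n : ℤ) - 2 by ring]; exact ln2 _ _)
      omega
  have ln1 : ∀ k j, ¬ U (c3 k j ((n : ℤ) - 1)) := by
    intro k j hu
    have hb := (rule hU hu).1
    have := ln1' ((n : ℤ) - k).toNat j
    rw [show (n : ℤ) - (((n : ℤ) - k).toNat : ℤ) = k by omega] at this
    exact this hu
  intro p hu
  obtain ⟨k, j, z, rfl⟩ := exists_c3 p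
  have hb := (rule hU hu).1
  rcases (show z = 1 ∨ z = n ∨ z = (n : ℤ) - 1 ∨ (2 ≤ z ∧ z ≤ (n : ℤ) - 2) by omega) with
    h | h | h | h
  · exact l1 k j (h ▸ hu)
  · exact ln k j (h ▸ hu)
  · exact ln1 k j (h ▸ hu)
  · have := lz (z - 2).toNat (by omega) k j
    rw [show (((z - 2).toNat : ℕ) : ℤ) + 2 = z by omega] at this
    exact this hu

/-- the base set percolates with threshold two -/
theorem perc2 (hn : 10 ≤ n) : Perc n 2 (TT n) := by
  intro U hU
  have l1 : ∀ k j, ¬ U (c3 k j 1) := by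
    intro k j hu
    exact (hU _ hu).2.1 (by rw [TT_c3]; exact Or.inl rfl)
  have ln : ∀ k j, ¬ U (c3 k j n) := by
    intro k j hu
    exact (hU _ hu).2.1 (by rw [TT_c3]; exact Or.inr (Or.inl rfl))
  -- special layers
  have spec : ∀ z : ℤ, (z = 2 ∨ z = (n : ℤ) - 1) → (∀ k j, ¬ U (c3 k j (z - 1))) →
      ∀ k j, ¬ U (c3 k j z) := by
    intro z hz hdn
    have key : ∀ m : ℕ, ∀ j, ¬ U (c3 ((n : ℤ) - m) j z) := by
      intro m
      induction m with
      | zero =>
        intro j hu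
        apply (hU _ hu).2.1
        rw [TT_c3, T3_end hn hz]
        simp
      | succ m ih =>
        intro j hu
        obtain ⟨hb, -, x1, x2, x3, x4, x5, x6, X, hX⟩ := rule hU hu
        have y1 := X.o1 (by push_cast; omega) (by
          rw [show (n : ℤ) - ((m + 1 : ℕ) : ℤ) + 1 = (n : ℤ) - m by push_cast; ring]; exact ih j)
        have y6 := X.o6 (by omega) (hdn _ _)
        omega
    intro k j hu
    have hb := (rule hU hu).1
    have := key ((n : ℤ) - k).toNat j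
    rw [show (n : ℤ) - (((n : ℤ) - k).toNat : ℤ) = k by omega] at this
    exact this hu
  have reg : ∀ z : ℤ, 3 ≤ z → z ≤ (n : ℤ) - 2 → (∀ k j, ¬ U (c3 k j (z - 1))) →
      ∀ k j, ¬ U (c3 k j z) := by
    intro z hz hz' hdn
    have w1 : ∀ m : ℕ, ¬ U (c3 1 ((m : ℤ) + 1) z) := by
      intro m
      induction m with
      | zero =>
        intro hu
        apply (hU _ hu).2.1
        rw [TT_c3, T3_reg hz hz']
        exact Or.inl ⟨by norm_num, by norm_num⟩
      | succ m ih =>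
        intro hu
        obtain ⟨hb, -, x1, x2, x3, x4, x5, x6, X, hX⟩ := rule hU hu
        have y4 := X.o4 (by push_cast; omega) (by
          rw [show ((m + 1 : ℕ) : ℤ) + 1 - 1 = (m : ℤ) + 1 by push_cast; ring]; exact ih)
        have y6 := X.o6 (by omega) (hdn _ _)
        omega
    have key : ∀ m : ℕ, ∀ j, ¬ U (c3 ((m : ℤ) + 1) j z) := by
      intro m
      induction m with
      | zero =>
        intro j hu
        have hb := (rule hU hu).1
        have := w1 (j - 1).toNat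
        rw [show (((j - 1).toNat : ℕ) : ℤ) + 1 = j by omega] at this
        apply this
        simpa using hu
      | succ m ih =>
        intro j hu
        obtain ⟨hb, -, x1, x2, x3, x4, x5, x6, X, hX⟩ := rule hU hu
        have y2 := X.o2 (by push_cast; omega) (by
          rw [show ((m + 1 : ℕ) : ℤ) + 1 - 1 = (m : ℤ) + 1 by push_cast; ring]; exact ih j)
        have y6 := X.o6 (by omega) (hdn _ _)
        omega
    intro k j hu
    have hb := (rule hU hu).1
    have := key (k - 1).toNat j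
    rw [show (((k - 1).toNat : ℕ) : ℤ) + 1 = k by omega] at this
    exact this hu
  have l2 : ∀ k j, ¬ U (c3 k j 2) := spec 2 (Or.inl rfl) (by
    intro k j
    rw [show (2 : ℤ) - 1 = 1 by norm_num]
    exact l1 k j)
  have lz : ∀ m : ℕ, (m : ℤ) + 2 ≤ (n : ℤ) - 2 → ∀ k j, ¬ U (c3 k j ((m : ℤ) + 2)) := by
    intro m
    induction m with
    | zero => intro _; simpa using l2
    | succ m ih =>
      intro hm
      apply reg _ (by push_cast; omega) hm
      intro k j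
      rw [show ((m + 1 : ℕ) : ℤ) + 2 - 1 = (m : ℤ) + 2 by push_cast; ring]
      exact ih (by push_cast at hm; omega) k j
  have ln1 : ∀ k j, ¬ U (c3 k j ((n : ℤ) - 1)) := by
    apply spec _ (Or.inr rfl)
    intro k j
    have := lz (n - 4) (by omega) k j
    rwa [show ((n - 4 : ℕ) : ℤ) + 2 = (n : ℤ) - 1 - 1 by omega] at this
  intro p hu
  obtain ⟨k, j, z, rfl⟩ := exists_c3 p
  have hb := (rule hU hu).1
  rcases (show z = 1 ∨ z = n ∨ z = (n : ℤ) - 1 ∨ (2 ≤ z ∧ z ≤ (n : ℤ) - 2) by omega) with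
    h | h | h | h
  · exact l1 k j (h ▸ hu)
  · exact ln k j (h ▸ hu)
  · exact ln1 k j (h ▸ hu)
  · have := lz (z - 2).toNat (by omega) k j
    rw [show (((z - 2).toNat : ℕ) : ℤ) + 2 = z by omega] at this
    exact this hu

end perc

end Pool.Agent.Lib.MP_1a3405_co.Diag
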