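import Mathlib
import Pool.Agent.Lib.MP_1a3405_co.Diag.BasePerc
import Pool.Agent.Lib.MP_1a3405_co.Ord.Final

/-!
The maximum percolation time of the `d`-neighbour process on `[n]^d`, `d ≥ 3`.
-/

namespace Pool.Agent.Lib.MP_1a3405_co.Diag

open Pool.Agent.Lib.MP_1a3405_co Pool.Agent.Lib.MP_1a3405_co.Ord

variable {n : ℕ}

lemma TT_R3 (p : Fin 3 → ℤ) : TT n (R3 n p) ↔ TT n p := by
  obtain ⟨k, j, z, rfl⟩ := exists_c3 p
  rw [R3_c3, TT_c3, TT_c3]
  constructor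
  · rintro (h | h | h | h)
    · right; left; omega
    · left; omega
    · right; right; left; exact ⟨by omega, h.2⟩
    · right; right; right; exact ⟨by omega, by omega, h.2.2⟩
  · rintro (h | h | h | h)
    · right; left; omega
    · left; omega
    · right; right; left; exact ⟨by omega, h.2⟩
    · right; right; right; exact ⟨by omega, by omega, h.2.2⟩

lemma R3_sA : R3 n (sA n) = sB n := by
  rw [sA, sB, R3_c3]
  congr 1
  ring

lemma R3_sB : R3 n (sB n) = sA n := by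
  rw [sA, sB, R3_c3]
  congr 1
  ring

theorem half3 (hn : 10 ≤ n) : Half n 2 (L3 n) (TT n) (τ3 n) (sA n) (sB n) := by
  refine ⟨?_, ?_, ?_, ?_, perc3 hn⟩
  · intro p _ _
    rw [τ3]
    exact ⟨le_max_left _ _, max_le (one_le_L3 hn) (min_le_left _ _)⟩
  · intro p hp hT _ h2
    exact cert3 hn p hp hT h2
  · rw [sB]
    exact τ3_late hn (by omega) (by omega) (by omega)
  · intro δ hb _
    have hz := nb_zero_bound (sB n) δ
    generalize nb (sB n) δ = q at hb hz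
    obtain ⟨k, j, z, rfl⟩ := exists_c3 q
    rw [inBox_c3] at hb
    rw [sB, c3_zero, c3_zero] at hz
    exact τ3_late hn hb.1 hb.2.1 (by omega)

theorem pair3 (hn : 10 ≤ n) :
    Pair n 2 (L3 n) (TT n) (sA n) (sB n) (τ3 n) (fun p => τ3 n (R3 n p)) := by
  have h1 := half3 hn
  have h2 := h1.map (R3 n) R3_R3 inBox_R3 cnt_R3 nb_R3
  have eT : (fun p => TT n (R3 n p)) = TT n := by
    funext p
    exact propext (TT_R3 p)
  rw [eT, R3_sA, R3_sB] at h2
  have hboxA : InBox n (sA n) := by rw [sA, inBox_c3]; omega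
  have hboxB : InBox n (sB n) := by rw [sB, inBox_c3]; omega
  have hA : ¬ TT n (sA n) := by
    rw [sA, TT_c3, T3_end hn (Or.inl rfl)]; omega
  have hB : ¬ TT n (sB n) := by
    rw [sB, TT_c3, T3_end hn (Or.inr rfl)]; omega
  refine ⟨hboxA, hboxB, hA, hB, ?_, ?_, ?_, inert3 hn, ?_, ?_, perc2 hn, h1, h2⟩
  · rw [sA, sB, Ne, c3_inj]
    omega
  · intro δ h
    have hz := nb_zero_bound (sA n) δ
    rw [h, sA, sB, c3_zero, c3_zero] at hz
    omega
  · intro δ h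
    have hz := nb_zero_bound (sB n) δ
    rw [h, sA, sB, c3_zero, c3_zero] at hz
    omega
  · obtain ⟨x1, x2, x3, x4, x5, x6, X⟩ := exists_X6 (n := n) (k := (n : ℤ) - 2) (j := 2) (z := 2)
      (TT n) (by omega) (by omega) (by omega)
    rw [sA, X.sum]
    have q1 := X.z1
    have q2 := X.z2
    have q3 := X.z3
    have q4 := X.z4
    have q5 := X.z5
    rw [TT_c3] at q1 q2 q3 q4 q5
    rw [T3_end hn (Or.inl rfl)] at q1 q2 q3 q4
    rw [T3_reg (by omega) (by omega)] at q5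
    have y1 := q1 (by omega)
    have y2 := q2 (by omega)
    have y3 := q3 (by omega)
    have y4 := q4 (by omega)
    have y5 := q5 (by rintro ⟨-, h | h | h⟩ <;> omega)
    have l6 := X.l6
    omega
  · obtain ⟨x1, x2, x3, x4, x5, x6, X⟩ := exists_X6 (n := n) (k := (n : ℤ) - 2) (j := 2)
      (z := (n : ℤ) - 1) (TT n) (by omega) (by omega) (by omega)
    rw [sB, X.sum]
    have q1 := X.z1
    have q2 := X.z2
    have q3 := X.z3
    have q4 := X.z4
    have q6 := X.z6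
    rw [TT_c3] at q1 q2 q3 q4 q6
    rw [T3_end hn (Or.inr rfl)] at q1 q2 q3 q4
    rw [T3_reg (by omega) (by omega)] at q6
    have y1 := q1 (by omega)
    have y2 := q2 (by omega)
    have y3 := q3 (by omega)
    have y4 := q4 (by omega)
    have y6 := q6 (by rintro ⟨-, h | h | h⟩ <;> omega)
    have l5 := X.l5
    omega

theorem pair_iterate (hn : 10 ≤ n) (k : ℕ) :
    ∃ (T : (Fin (3 + k) → ℤ) → Prop) (a b : Fin (3 + k) → ℤ) (τa τb : (Fin (3 + k) → ℤ) → ℤ),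
      Pair n (2 + k) (((n : ℤ) - 4) ^ k * L3 n) T a b τa τb := by
  induction k with
  | zero => exact ⟨_, _, _, _, _, by simpa using pair3 hn⟩
  | succ k ih =>
    obtain ⟨T, a, b, τa, τb, h⟩ := ih
    obtain ⟨T', a', b', τa', τb', h'⟩ := h.stack (by omega)
    refine ⟨T', a', b', τa', τb', ?_⟩
    have e : ((n : ℤ) - 4) ^ (k + 1) * L3 n = ((n : ℤ) - 4) * (((n : ℤ) - 4) ^ k * L3 n) := by
      ring
    rw [e]
    exact h'

theorem lower_diag (hn : 10 ≤ n) (k : ℕ) :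
    ((n : ℤ) - 4) ^ k * L3 n ≤ (maxPercTime (grid (3 + k) n) (3 + k) : ℤ) := by
  obtain ⟨T, a, b, τa, τb, h⟩ := pair_iterate hn k
  have h1 := h.ha.le_max h.box_b h.not_b h.ne.symm
  rwa [show 2 + k + 1 = 3 + k by omega] at h1

/-- `n^d - (4d+3) n^(d-1) ≤ M([n]^d, d)` for all `d ≥ 3` -/
theorem lower_real (k n : ℕ) :
    (n : ℝ) ^ (3 + k) - (4 * ((3 + k : ℕ) : ℝ) + 3) * (n : ℝ) ^ (3 + k - 1) ≤
      (maxPercTime (grid (3 + k) n) (3 + k) : ℝ) := by
  have e1 : 3 + k - 1 = 2 + k := by omega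
  rw [e1]
  have hn0 : (0 : ℝ) ≤ n := Nat.cast_nonneg n
  have hk0 : (0 : ℝ) ≤ k := Nat.cast_nonneg k
  by_cases hn : 10 ≤ n
  · have h1 := lower_diag hn k
    have h2 : (((n : ℤ) - 4) ^ k * L3 n : ℝ) ≤ (maxPercTime (grid (3 + k) n) (3 + k) : ℝ) := by
      exact_mod_cast h1
    refine le_trans ?_ h2
    have h10 : (10 : ℝ) ≤ n := by exact_mod_cast hn
    rw [L3]
    push_cast
    have key : ∀ m : ℕ, (n : ℝ) ^ (m + 1) - 4 * (m : ℝ) * (n : ℝ) ^ m ≤
        ((n : ℝ) - 4) ^ m * n := by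
      intro m
      induction m with
      | zero => simp
      | succ m ih =>
        have h3 := mul_le_mul_of_nonneg_right ih (show (0 : ℝ) ≤ (n : ℝ) - 4 by linarith)
        have h4 : (0 : ℝ) ≤ (n : ℝ) ^ m := by positivity
        have h5 : (0 : ℝ) ≤ (m : ℝ) := Nat.cast_nonneg m
        have h6 : (0 : ℝ) ≤ 16 * ((m : ℝ) * (n : ℝ) ^ m) := by positivity
        push_cast
        calc (n : ℝ) ^ (m + 1 + 1) - 4 * ((m : ℝ) + 1) * (n : ℝ) ^ (m + 1)
            ≤ ((n : ℝ) ^ (m + 1) - 4 * (m : ℝ) * (n : ℝ) ^ m) * ((n : ℝ) - 4) := by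
              ring_nf
              ring_nf at h6
              linarith
          _ ≤ ((n : ℝ) - 4) ^ m * n * ((n : ℝ) - 4) := h3
          _ = ((n : ℝ) - 4) ^ (m + 1) * n := by ring
    have h3 := key k
    have h4 : (0 : ℝ) ≤ ((n : ℝ) - 8) * ((n : ℝ) - 7) := mul_nonneg (by linarith) (by linarith)
    have h5 := mul_le_mul_of_nonneg_right h3 h4
    have h6 : (0 : ℝ) ≤ ((n : ℝ) - 4) ^ k := pow_nonneg (by linarith) k
    have h7 : (0 : ℝ) ≤ (n : ℝ) ^ k := by positivity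
    have h8 : (n : ℝ) ^ (3 + k) - (4 * (3 + (k : ℝ)) + 3) * (n : ℝ) ^ (2 + k) ≤
        ((n : ℝ) ^ (k + 1) - 4 * (k : ℝ) * (n : ℝ) ^ k) * (((n : ℝ) - 8) * ((n : ℝ) - 7)) := by
      have e2 : ((n : ℝ) ^ (k + 1) - 4 * (k : ℝ) * (n : ℝ) ^ k) * (((n : ℝ) - 8) * ((n : ℝ) - 7)) -
          ((n : ℝ) ^ (3 + k) - (4 * (3 + (k : ℝ)) + 3) * (n : ℝ) ^ (2 + k)) =
          (n : ℝ) ^ k * (56 * n + (k : ℝ) * (60 * n - 224)) := by ring
      have e3 : (0 : ℝ) ≤ (n : ℝ) ^ k * (56 * n + (k : ℝ) * (60 * n - 224)) := by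
        apply mul_nonneg h7
        have : 0 ≤ (k : ℝ) * (60 * n - 224) := mul_nonneg hk0 (by linarith)
        linarith
      linarith
    calc (n : ℝ) ^ (3 + k) - (4 * (3 + (k : ℝ)) + 3) * (n : ℝ) ^ (2 + k)
        ≤ _ := h8
      _ ≤ ((n : ℝ) - 4) ^ k * n * (((n : ℝ) - 8) * ((n : ℝ) - 7)) := h5
      _ ≤ ((n : ℝ) - 4) ^ k * (((n : ℝ) - 8) * (((n : ℝ) - 7) * n) + 1) := by nlinarith
  · have h9 : (n : ℝ) ≤ 9 := by
      have : n ≤ 9 := by omega
      exact_mod_cast this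
    have h2 : (0 : ℝ) ≤ (maxPercTime (grid (3 + k) n) (3 + k) : ℝ) := Nat.cast_nonneg _
    refine le_trans ?_ h2
    have e2 : (n : ℝ) ^ (3 + k) = n * (n : ℝ) ^ (2 + k) := by ring
    rw [e2, ← sub_mul]
    apply mul_nonpos_of_nonpos_of_nonneg
    · push_cast; linarith
    · positivity

/-- `M([n]^d, d) = n^d - O(n^(d-1))` for all `d ≥ 3` -/
theorem diag (d : ℕ) (hd : 3 ≤ d) (n : ℕ) :
    (n : ℝ) ^ d - (4 * (d : ℝ) + 3) * (n : ℝ) ^ (d - 1) ≤ (maxPercTime (grid d n) d : ℝ) ∧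
      (maxPercTime (grid d n) d : ℝ) ≤ (n : ℝ) ^ d := by
  obtain ⟨k, rfl⟩ : ∃ k, d = 3 + k := ⟨d - 3, by omega⟩
  exact ⟨lower_real k n, by exact_mod_cast Ord.upper (3 + k) n (3 + k)⟩

end Pool.Agent.Lib.MP_1a3405_co.Diag
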